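import Pool.Agent.H63.EQ.Assemble

/-!
# There is no closed polygonal web with an even number of chords seen under more than `90°`:
the assembly
-/

namespace Pool.Agent.H63.EQ
open Filter Topology Pool.Agent.H58.EQ

variable {q : ℕ} [NeZero q]

namespace Cyc

variable {W : Web (ZMod q)} {A : ZMod q → ℂ} (h : Cyc W A)

include h

theorem planarA (h90 : W.Wide90) (m0 : ZMod q)
    (htop : ∀ e, W.cr e (A m0) → ¬ W.kp e (A m0) < 1) (hR : ∃ e, W.R e = A m0) : False := by
  classical
  obtain ⟨v0, hv0, hvis⟩ := W.exists_visible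
  obtain ⟨mv, rfl⟩ := h.exists_of_vtx hv0
  have hAne : ∀ m, A m ≠ 0 := fun m => W.ne_zero_of_vtx (h.vtx m)
  have hr0 : 0 < ‖A mv‖ := norm_pos_iff.2 (hAne mv)
  have hr1 : 0 < ‖A m0‖ := norm_pos_iff.2 (hAne m0)
  have hp0 := polar (A mv)
  have hp1 := polar (A m0)
  set s0 := Complex.arg (A mv)
  set s1 := Complex.arg (A m0)
  -- choice of `u`
  have h1 : ∀ᶠ η in 𝓝[>] (0 : ℝ), ∀ m, dt (om (s0 + 1 * η)) (A m) ≠ 0 := by
    rw [eventually_all]
    intro m
    exact gen_eventually s0 1 (Or.inl rfl) _ (hAne m)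
  have h2 : ∀ᶠ η in 𝓝[>] (0 : ℝ), ∀ e, (W.cr e (A mv) ∨ W.R e = A mv) →
      0 < dt (W.L e) (om (s0 + 1 * η)) := by
    rw [eventually_all]
    intro e
    by_cases he : W.cr e (A mv) ∨ W.R e = A mv
    · have h0 : 0 < dt (W.L e) (A mv) := by
        rcases he with he | he
        · exact he.1
        · rw [← he]; exact W.pos e
      rw [hp0, dt_smul_right, mul_pos_iff_of_pos_left hr0] at h0
      filter_upwards [pos_eventually s0 1 _ h0] with η h _ using h
    · exact Eventually.of_forall fun η h => absurd h he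
  have h3 : ∀ᶠ η in 𝓝[>] (0 : ℝ), 0 < η ∧ η < Real.pi / 3 :=
    Ioo_mem_nhdsGT (by have := Real.pi_pos; positivity)
  obtain ⟨η, hη1, hη2, hη3, hη4⟩ := (h1.and (h2.and h3)).exists
  rw [one_mul] at hη1 hη2
  set u := om (s0 + η) with hu
  have hu0 : u ≠ 0 := om_ne_zero _
  have hV0 : V0 u (om s0) = -u := by
    unfold V0
    rw [if_neg]
    rw [hu, dt_om_om]
    have : s0 - (s0 + η) = -η := by ring
    rw [this, Real.sin_neg]
    have := Real.sin_pos_of_pos_of_lt_pi hη3 (by linarith [Real.pi_pos])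
    linarith
  -- choice of `w`
  obtain ⟨B, Ab, I, O, hleft, _, hB, hA, hI, hO, hIn, hOn, _, hs0⟩ :=
    W.strands_vtx s1 _ hr1 (A m0) hp1 (h.vtx m0)
  have hAnil : Ab = [] := by
    rw [List.eq_nil_iff_forall_not_mem]
    intro e he
    exact htop e ((hA e).1 he).1 ((hA e).1 he).2
  have hIne : ∃ I' e, I = I' ++ [e] ∧ W.R e = A m0 := by
    obtain ⟨e, he⟩ := hR
    have heI := (hI e).2 he
    rcases List.eq_nil_or_concat I with h | ⟨I', f, h⟩
    · rw [h] at heI; simp at heI
    · refine ⟨I', f, by rw [h, List.concat_eq_append], ?_⟩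
      apply (hI f).1; rw [h]; simp
  obtain ⟨I', eI, hII, hRI⟩ := hIne
  have hlenI : I.length = il W (A m0) := by
    unfold il; exact length_eq_card hIn hI
  have hBn : B.Nodup := by
    have := W.nodup_strands (om s1)
    rw [hs0] at this
    exact (List.nodup_append.1 this).1
  have hlenB : B.length = bl W (A m0) := by
    unfold bl; exact length_eq_card hBn hB
  have k1 : ∀ᶠ η in 𝓝[>] (0 : ℝ), ∀ m, dt (om (s1 + (-1) * η)) (A m) ≠ 0 ∧
      dt (om (s1 + (-1) * η)) (A m * Complex.I) ≠ 0 := by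
    rw [eventually_all]
    intro m
    exact (gen_eventually s1 (-1) (Or.inr rfl) _ (hAne m)).and
      (gen_eventually s1 (-1) (Or.inr rfl) _ (mul_ne_zero (hAne m) Complex.I_ne_zero))
  have k2 : ∀ᶠ η in 𝓝[>] (0 : ℝ), dt (om (s1 + (-1) * η)) u ≠ 0 ∧
      dt (om (s1 + (-1) * η)) (u * Complex.I) ≠ 0 :=
    (gen_eventually s1 (-1) (Or.inr rfl) u hu0).and
      (gen_eventually s1 (-1) (Or.inr rfl) _ (mul_ne_zero hu0 Complex.I_ne_zero))
  have k3 : ∀ᶠ η in 𝓝[>] (0 : ℝ), 0 < dt (W.L eI) (om (s1 + (-1) * η) * (-Complex.I)) := by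
    have h0 : 0 < dt (W.L eI) (om (s1 - Real.pi / 2)) := by
      have := h90 eI
      rw [hRI, hp1, mul_assoc, dt_smul_right, om_negI] at this
      exact (pos_iff_pos_of_mul_pos this).1 hr1
    filter_upwards [pos_eventually (s1 - Real.pi / 2) (-1) _ h0] with η h
    rw [om_negI]
    have e1 : s1 + -1 * η - Real.pi / 2 = s1 - Real.pi / 2 + -1 * η := by ring
    rw [e1]; exact h
  have k4 : ∀ᶠ η in 𝓝[>] (0 : ℝ), W.strands (om (s1 + (-1) * η)) = B ++ (I ++ Ab) := by
    have ht : Tendsto (fun η : ℝ => s1 + (-1) * η) (𝓝[>] 0) (𝓝[<] s1) := by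
      apply tendsto_nhdsWithin_of_tendsto_nhds_of_eventually_within
      · have hc : Continuous fun η : ℝ => s1 + (-1) * η := by fun_prop
        have := hc.tendsto 0
        simp only [mul_zero, add_zero] at this
        exact this.mono_left nhdsWithin_le_nhds
      · filter_upwards [self_mem_nhdsWithin] with η hη
        simp only [Set.mem_Ioi] at hη
        simp only [Set.mem_Iio]; linarith
    exact ht.eventually hleft
  obtain ⟨η', q1, q2, q3, q4⟩ := (k1.and (k2.and (k3.and k4))).exists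
  set w := om (s1 + (-1) * η') with hw
  have hw0 : w ≠ 0 := om_ne_zero _
  have hWv : ∀ p, isW4 w p → ∀ m, dt p.1 (A m) ≠ 0 := by
    intro p hp m
    exact dt_W4_ne hp (q1 m).1 (q1 m).2
  have hWu : ∀ p, isW4 w p → dt p.1 u ≠ 0 := fun p hp => dt_W4_ne hp q2.1 q2.2
  have hlast : ∃ B' e, W.strands w = B' ++ [e] ∧ 0 < dt (W.L e) (w * (-Complex.I)) := by
    refine ⟨B ++ I', eI, ?_, q3⟩
    rw [q4, hAnil, List.append_nil, hII, List.append_assoc]
  have hlenw : (W.strands w).length = bl W (A m0) + il W (A m0) := by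
    rw [q4, hAnil, List.append_nil, List.length_append, hlenB, hlenI]
  -- the events
  let z : ZMod q ⊕ (Bool ⊕ Fin 4) → ℂ := Sum.elim (fun m => (A m) / ((‖A m‖ : ℝ) : ℂ))
    (Sum.elim (fun b => if b then u else -u) (fun i => (pw w i).1))
  have hzn : ∀ m, ((‖A m‖ : ℝ) : ℂ) ≠ 0 := by
    intro m; rw [Complex.ofReal_ne_zero]; exact norm_ne_zero_iff.2 (hAne m)
  have hzv : ∀ m s, om s = z (Sum.inl m) → A m = ((‖A m‖ : ℝ) : ℂ) * om s := by
    intro m s h
    rw [h]
    have := hzn m
    simp only [z, Sum.elim_inl]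
    field_simp
  have hz1 : ∀ j, ∃ t : ℝ, z j = om t := by
    rintro (m | b | i)
    · refine ⟨Complex.arg (A m), ?_⟩
      simp only [z, Sum.elim_inl]
      rw [div_eq_iff (hzn m), mul_comm]
      exact polar (A m)
    · cases b
      · exact ⟨s0 + η + Real.pi, by simp [z, om_pi, hu]⟩
      · exact ⟨s0 + η, by simp [z, hu]⟩
    · obtain ⟨t', ht'⟩ := isW4_om (isW4_pw w i)
      exact ⟨t', by simp only [z, Sum.elim_inr]; exact ht'⟩
  have hzu : ∀ b : Bool, z (Sum.inr (Sum.inl b)) = u ∨ z (Sum.inr (Sum.inl b)) = -u := by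
    intro b; cases b
    · right; simp [z]
    · left; simp [z]
  have hvdir : ∀ (m : ZMod q) (x : ℂ), z (Sum.inl m) = x → dt x (A m) = 0 := by
    intro m x h
    obtain ⟨t, ht⟩ := hz1 (Sum.inl m)
    have := hzv m t ht.symm
    rw [this, ← h, ht, dt_smul_right, dt_self, mul_zero]
  have hinj : Function.Injective z := by
    rintro (m | b | i) (m' | b' | i') hh
    · have h1 := hvdir m _ hh
      obtain ⟨t, ht⟩ := hz1 (Sum.inl m')
      have h2 := hzv m' t ht.symm
      have h3 : dt (A m') (A m) = 0 := by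
        rw [h2, dt_smul_left, ← ht, h1, mul_zero]
      have := W.eq_of_dt_eq_zero (h.vtx m') (h.vtx m) h3
      exact congrArg Sum.inl (h.inj this.symm)
    · exfalso
      have h1 := hvdir m _ hh
      rcases hzu b' with h' | h' <;> rw [h'] at h1
      · exact hη1 m h1
      · rw [dt_neg_left, neg_eq_zero] at h1; exact hη1 m h1
    · exact absurd (hvdir m _ hh) (hWv _ (isW4_pw w i') m)
    · exfalso
      have h1 := hvdir m' _ hh.symm
      rcases hzu b with h' | h' <;> rw [h'] at h1
      · exact hη1 m' h1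
      · rw [dt_neg_left, neg_eq_zero] at h1; exact hη1 m' h1
    · cases b <;> cases b'
      · rfl
      · exfalso; simp [z] at hh; exact hu0 (by
          have : (2 : ℂ) * u = 0 := by linear_combination -hh
          simpa using this)
      · exfalso; simp [z] at hh; exact hu0 (by
          have : (2 : ℂ) * u = 0 := by linear_combination hh
          simpa using this)
      · rfl
    · exfalso
      have h1 := hWu _ (isW4_pw w i')
      have h2 : (pw w i').1 = z (Sum.inr (Sum.inl b)) := hh.symm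
      rcases hzu b with h' | h' <;> rw [h2, h'] at h1
      · exact h1 (dt_self u)
      · exact h1 (by rw [dt_neg_left, dt_self, neg_zero])
    · exact absurd (hvdir m' _ hh.symm) (hWv _ (isW4_pw w i) m')
    · exfalso
      have h1 := hWu _ (isW4_pw w i)
      have h2 : (pw w i).1 = z (Sum.inr (Sum.inl b')) := hh
      rcases hzu b' with h' | h' <;> rw [h2, h'] at h1
      · exact h1 (dt_self u)
      · exact h1 (by rw [dt_neg_left, dt_self, neg_zero])
    · exact congrArg (fun i => Sum.inr (Sum.inr i)) (pw_injective hw0 i i' hh)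
  -- the vertex events
  have HV : ∀ m : ZMod q, ∃ (D : ℕ) (d : ℤ × ZMod 2), JumpAt (FS W A h.even m0 u w) (z (Sum.inl m)) d ∧
      2 * d.1 = (ol W (A m) : ℤ) - il W (A m) - 2 * D ∧
      d.2 = (if m = m0 then (bl W (A m) : ZMod 2) else 1 + (il W (A m) : ZMod 2))
          + D * (bl W (A m) : ZMod 2) ∧ (m = mv → 1 ≤ D) := by
    intro m
    obtain ⟨s, hs⟩ := hz1 (Sum.inl m)
    have hv := hzv m s hs.symm
    have hr : 0 < ‖A m‖ := norm_pos_iff.2 (hAne m)
    have hdz : ∀ x, dt x (A m) ≠ 0 → dt x (om s) ≠ 0 := by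
      intro x hx h
      apply hx
      rw [hv, dt_smul_right, h, mul_zero]
    have hus : dt u (om s) ≠ 0 := hdz u (hη1 m)
    have hw1 : dt w (om s) ≠ 0 := hdz _ (hWv (w, 0) (Or.inl rfl) m)
    have hw2 : dt (w * Complex.I) (om s) ≠ 0 :=
      hdz _ (hWv (w * Complex.I, 1) (Or.inr (Or.inl rfl)) m)
    obtain ⟨D, d, d1, d2, d3, d4⟩ := h.vtx_jumpAt h90 m0 m u w s _ hr hv hus hw1 hw2 (by
      rintro rfl
      exact ⟨htop, hR⟩)
    refine ⟨D, d, by rw [hs]; exact d1, d2, d3, ?_⟩
    intro hmv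
    subst hmv
    have hsv : om s = om s0 := by
      have hn : ((‖A m‖ : ℝ) : ℂ) ≠ 0 := hzn m
      exact mul_left_cancel₀ hn (by rw [← hv, ← hp0])
    have hV1 := V1c_spec w (om s) hw1 hw2
    apply d4 hvis
    · rw [hsv, hV0, dt_neg_left, dt_anti, neg_neg]
      rw [hsv] at hV1
      exact dt_quad' hV1.2.1 hV1.2.2 hη3 hη4
    · intro e he
      rw [hsv, hV0, dt_neg_left, dt_anti, neg_neg]
      exact hη2 e he
  have HT : ∀ i : Fin 4, ∃ D : ℕ, JumpAt (FS W A h.even m0 u w) (z (Sum.inr (Sum.inr i)))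
      (1 - (D : ℤ), D * ((W.strands (pw w i).1).length : ZMod 2)) ∧ (i = 0 → 1 ≤ D) := by
    intro i
    obtain ⟨s, hs⟩ := hz1 (Sum.inr (Sum.inr i))
    have hsw : om s = (pw w i).1 := hs.symm
    have hus : dt u (om s) ≠ 0 := by
      rw [dt_anti, hsw]; exact neg_ne_zero.2 (hWu _ (isW4_pw w i))
    have hnv : ∀ v, W.vtx v → ¬ ∃ r : ℝ, 0 < r ∧ v = (r : ℂ) * om s := by
      rintro v hv ⟨r, hr, hvr⟩
      obtain ⟨m, rfl⟩ := h.exists_of_vtx hv
      apply hWv _ (isW4_pw w i) m
      rw [hvr, dt_smul_right, hsw, dt_self, mul_zero]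
    obtain ⟨D, d1, d2⟩ := jumpAt_W W A h.even m0 u w (pw w i) s hnv hus (isW4_pw w i) hsw
    refine ⟨D, ?_, ?_⟩
    · rw [hs, ← hsw]; exact d1
    · intro hi
      apply d2
      subst hi
      rw [hsw]; exact hlast
  have HB : ∀ b : Bool, JumpAt (FS W A h.even m0 u w) (z (Sum.inr (Sum.inl b))) (-1, 0) := by
    intro b
    obtain ⟨s, hs⟩ := hz1 (Sum.inr (Sum.inl b))
    have hub : om s = u ∨ om s = -u := by
      rcases hzu b with h | h
      · left; rw [← hs, h]
      · right; rw [← hs, h]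
    have hdz : ∀ x, dt x u ≠ 0 → dt x (om s) ≠ 0 := by
      intro x hx
      rcases hub with h | h <;> rw [h]
      · exact hx
      · rw [dt_neg_right]; exact neg_ne_zero.2 hx
    have hnv : ∀ v, W.vtx v → ¬ ∃ r : ℝ, 0 < r ∧ v = (r : ℂ) * om s := by
      rintro v hv ⟨r, hr, hvr⟩
      obtain ⟨m, rfl⟩ := h.exists_of_vtx hv
      apply hη1 m
      rw [hvr, dt_smul_right]
      rcases hub with h | h <;> rw [h]
      · rw [dt_self, mul_zero]
      · rw [dt_neg_right, dt_self, neg_zero, mul_zero]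
    rw [hs]
    exact jumpAt_zero W A h.even m0 u w s hnv hub (hdz _ (hWu (w, 0) (Or.inl rfl)))
      (hdz _ (hWu (w * Complex.I, 1) (Or.inr (Or.inl rfl))))
  choose DV dV HV1 HV2 HV3 HV4 using HV
  choose DT HT1 HT2 using HT
  have hsweep := circle_sweep_eq (FS W A h.even m0 u w) z hinj
    (Sum.elim dV (Sum.elim (fun _ => (-1, 0))
      (fun i => (1 - (DT i : ℤ), DT i * ((W.strands (pw w i).1).length : ZMod 2))))) ?_ ?_
  · rw [Fintype.sum_sum_type, Fintype.sum_sum_type] at hsweep
    simp only [Sum.elim_inl, Sum.elim_inr] at hsweep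
    refine count_false mv m0 (fun m => ol W (A m)) (fun m => il W (A m)) (fun m => bl W (A m))
      (fun i => (W.strands (pw w i).1).length) h.sum_ol h.sum_il dV _ DV DT HV2 HV3 (HV4 mv rfl) ?_
      (fun i => rfl) (HT2 0 rfl) ?_ hsweep
    · unfold bl
      rw [Finset.card_eq_zero, Finset.filter_eq_empty_iff]
      intro e _ he
      exact hvis e he.1 he.2
    · exact hlenw
  · -- constancy
    intro s hs
    have hnv : ∀ v, W.vtx v → ¬ ∃ r : ℝ, 0 < r ∧ v = (r : ℂ) * om s := by
      rintro v hv ⟨r, hr, hvr⟩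
      obtain ⟨m, rfl⟩ := h.exists_of_vtx hv
      apply hs (Sum.inl m)
      simp only [z, Sum.elim_inl]
      have hn : ‖A m‖ = r := by
        have h1 : ‖om s‖ = 1 := norm_om s
        rw [hvr, norm_mul, h1, Complex.norm_real, Real.norm_of_nonneg hr.le, mul_one]
      rw [hn, hvr]
      have : (r : ℂ) ≠ 0 := by exact_mod_cast hr.ne'
      field_simp
    have hus : dt u (om s) ≠ 0 := by
      intro h
      rcases om_of_parallel (t := s0 + η) h with h | h
      · exact hs (Sum.inr (Sum.inl true)) (by simp [z, h, hu])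
      · exact hs (Sum.inr (Sum.inl false)) (by simp [z, h, hu])
    have hWs : ∀ p, isW4 w p → om s ≠ p.1 := by
      intro p hp hh
      obtain ⟨i, rfl⟩ := exists_pw hp
      exact hs (Sum.inr (Sum.inr i)) hh
    have hw1 : dt w (om s) ≠ 0 := by
      intro h
      rcases om_of_parallel (t := s1 + (-1) * η') h with h | h
      · exact hWs (w, 0) (Or.inl rfl) h
      · exact hWs (-w, 0) (Or.inr (Or.inr (Or.inl rfl))) h
    have hw2 : dt (w * Complex.I) (om s) ≠ 0 := by
      intro h
      rw [hw, om_I] at h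
      rcases om_of_parallel h with h | h
      · exact hWs (w * Complex.I, 1) (Or.inr (Or.inl rfl)) (by rw [h, hw, om_I])
      · exact hWs (-(w * Complex.I), 1) (Or.inr (Or.inr (Or.inr rfl))) (by rw [h, hw, om_I])
    exact FS_const W A h.even m0 u w s hnv hus hw1 hw2
  · rintro (m | b | i)
    · exact HV1 m
    · exact HB b
    · exact HT1 i

end Cyc

/-- the mirror image of a closed polygonal web -/
theorem Cyc.mirror {W : Web (ZMod q)} {A : ZMod q → ℂ} (h : Cyc W A) :
    Cyc W.mirror (fun m => starRingEnd ℂ (A m)) where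
  inj := by
    intro a b hab
    exact h.inj ((starRingEnd ℂ).injective hab)
  even := h.even
  lr := by
    intro i
    rcases h.lr i with h1 | h1
    · right
      exact ⟨congrArg (starRingEnd ℂ) h1.2, congrArg (starRingEnd ℂ) h1.1⟩
    · left
      exact ⟨congrArg (starRingEnd ℂ) h1.2, congrArg (starRingEnd ℂ) h1.1⟩

/-- There is no closed polygonal web with an even number of sides each of which is seen from the
origin under an angle of more than `90°`. -/
theorem web_even_false {W : Web (ZMod q)} {A : ZMod q → ℂ} (h : Cyc W A) (h90 : W.Wide90) :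
    False := by
  obtain ⟨vm, hvm, htop⟩ := W.exists_top
  obtain ⟨m0, rfl⟩ := h.exists_of_vtx hvm
  by_cases hR : ∃ e, W.R e = A m0
  · exact h.planarA h90 m0 htop hR
  · obtain ⟨e, he | he⟩ := hvm
    · refine h.mirror.planarA ?_ m0 ?_ ⟨e, ?_⟩
      · intro f
        have h1 := h90 f
        have h2 : starRingEnd ℂ (W.L f) * (-Complex.I) = starRingEnd ℂ (W.L f * Complex.I) := by
          rw [map_mul, Complex.conj_I]
        change 0 < dt (starRingEnd ℂ (W.R f)) (starRingEnd ℂ (W.L f) * (-Complex.I))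
        rw [h2, dt_conj, ← dt_anti, dt_mul_I_left]
        have e1 : W.R f * (-Complex.I) = -(W.R f * Complex.I) := by ring
        rw [e1, dt_neg_right] at h1
        exact h1
      · intro f hf hk
        have hf1 : 0 < dt (starRingEnd ℂ (W.R f)) (starRingEnd ℂ (A m0)) := hf.1
        have hf2 : 0 < dt (starRingEnd ℂ (A m0)) (starRingEnd ℂ (W.L f)) := hf.2
        rw [dt_conj] at hf1 hf2
        apply htop f
        · exact ⟨by rw [dt_anti]; exact hf2, by rw [dt_anti]; exact hf1⟩
        · have h1 := W.mirror.kp_eq f (starRingEnd ℂ (A m0))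
          have h2 : W.mirror.kp f (starRingEnd ℂ (A m0))
              = (dt (starRingEnd ℂ (W.R f)) (starRingEnd ℂ (A m0))
                + dt (starRingEnd ℂ (A m0)) (starRingEnd ℂ (W.L f)))
                / dt (starRingEnd ℂ (W.R f)) (starRingEnd ℂ (W.L f)) := h1
          rw [h2, dt_conj, dt_conj, dt_conj, ← dt_anti, ← dt_anti, ← dt_anti] at hk
          rw [W.kp_eq, add_comm]; exact hk
      · change starRingEnd ℂ (W.L e) = starRingEnd ℂ (A m0)
        rw [he]
    · exact hR ⟨e, he.symm⟩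

end Pool.Agent.H63.EQ
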