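import Pool.Agent.H63.EQ.VEvent

/-!
# There is no closed polygonal web with an even number of chords seen under more than `90°`
-/

namespace Pool.Agent.H63.EQ
open Filter Topology Pool.Agent.H58.EQ

variable {q : ℕ} [NeZero q]

theorem dt_mul_I_left (w z : ℂ) : dt (w * Complex.I) z = - dt w (z * Complex.I) := by
  unfold dt
  simp only [Complex.mul_re, Complex.mul_im, Complex.I_re, Complex.I_im]
  ring

theorem dt_W4_ne {w z : ℂ} {p : ℂ × ZMod 2} (h : isW4 w p) (h0 : dt w z ≠ 0)
    (h1 : dt w (z * Complex.I) ≠ 0) : dt p.1 z ≠ 0 := by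
  rcases h with rfl | rfl | rfl | rfl
  · exact h0
  · simp only; rw [dt_mul_I_left]; exact neg_ne_zero.2 h1
  · simp only; rw [dt_neg_left]; exact neg_ne_zero.2 h0
  · simp only; rw [dt_neg_left, dt_mul_I_left, neg_neg]; exact h1

theorem om_I (t : ℝ) : om t * Complex.I = om (t + Real.pi / 2) := by
  apply Complex.ext
  · simp [om, Real.cos_add_pi_div_two]
  · simp [om, Real.sin_add_pi_div_two]

theorem om_negI (t : ℝ) : om t * (-Complex.I) = om (t - Real.pi / 2) := by
  apply Complex.ext
  · simp [om, Real.cos_sub_pi_div_two]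
  · simp [om, Real.sin_sub_pi_div_two]

theorem isW4_om {t : ℝ} {p : ℂ × ZMod 2} (h : isW4 (om t) p) : ∃ t' : ℝ, p.1 = om t' := by
  rcases h with rfl | rfl | rfl | rfl
  · exact ⟨t, rfl⟩
  · exact ⟨_, om_I t⟩
  · exact ⟨t + Real.pi, by rw [om_pi]⟩
  · exact ⟨t + Real.pi / 2 + Real.pi, by rw [om_pi, ← om_I]⟩

/-- the four coloured vectors -/
noncomputable def pw (w : ℂ) : Fin 4 → ℂ × ZMod 2 :=
  ![(w, 0), (w * Complex.I, 1), (-w, 0), (-(w * Complex.I), 1)]

theorem isW4_pw (w : ℂ) (i : Fin 4) : isW4 w (pw w i) := by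
  fin_cases i
  · left; rfl
  · right; left; rfl
  · right; right; left; rfl
  · right; right; right; rfl

theorem exists_pw {w : ℂ} {p : ℂ × ZMod 2} (h : isW4 w p) : ∃ i, p = pw w i := by
  rcases h with rfl | rfl | rfl | rfl
  · exact ⟨0, rfl⟩
  · exact ⟨1, rfl⟩
  · exact ⟨2, rfl⟩
  · exact ⟨3, rfl⟩

theorem pw_injective {w : ℂ} (hw : w ≠ 0) (i j : Fin 4) (h : (pw w i).1 = (pw w j).1) : i = j := by
  have hI : ∀ x : ℂ, w * x = 0 → x = 0 := fun x hx => (mul_eq_zero.1 hx).resolve_left hw
  fin_cases i <;> fin_cases j <;>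
    first
    | rfl
    | (exfalso
       simp only [pw, Fin.isValue, Fin.zero_eta, Fin.mk_one, Matrix.cons_val_zero,
         Matrix.cons_val_one, Fin.reduceFinMk, Matrix.cons_val] at h
       first
       | (have := hI (1 - Complex.I) (by linear_combination h)
          have h2 := congrArg Complex.re this
          simp at h2)
       | (have := hI (2 : ℂ) (by linear_combination h)
          norm_num at this)
       | (have := hI (1 + Complex.I) (by linear_combination h)
          have h2 := congrArg Complex.re this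
          simp at h2)
       | (have := hI (1 - Complex.I) (by linear_combination -h)
          have h2 := congrArg Complex.re this
          simp at h2)
       | (have := hI (2 * Complex.I) (by linear_combination h)
          have h2 := congrArg Complex.im this
          simp at h2)
       | (have := hI (1 + Complex.I) (by linear_combination -h)
          have h2 := congrArg Complex.re this
          simp at h2)
       | (have := hI (2 : ℂ) (by linear_combination -h)
          norm_num at this)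
       | (have := hI (2 * Complex.I) (by linear_combination -h)
          have h2 := congrArg Complex.im this
          simp at h2))

namespace Cyc

variable {W : Web (ZMod q)} {A : ZMod q → ℂ} (h : Cyc W A)

include h

theorem sum_ol : ∑ m, ol W (A m) = q := by
  classical
  have h1 : (Finset.univ : Finset (ZMod q)).card
      = ∑ v ∈ Finset.univ.image A, (Finset.univ.filter fun f => W.L f = v).card :=
    Finset.card_eq_sum_card_fiberwise fun e _ => by
      obtain ⟨m, hm⟩ := h.exists_of_vtx ⟨e, Or.inl rfl⟩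
      rw [hm]; simp
  rw [Finset.sum_image (fun a _ b _ hab => h.inj hab), Finset.card_univ, ZMod.card] at h1
  exact h1.symm

theorem sum_il : ∑ m, il W (A m) = q := by
  classical
  have h1 : (Finset.univ : Finset (ZMod q)).card
      = ∑ v ∈ Finset.univ.image A, (Finset.univ.filter fun f => W.R f = v).card :=
    Finset.card_eq_sum_card_fiberwise fun e _ => by
      obtain ⟨m, hm⟩ := h.exists_of_vtx ⟨e, Or.inr rfl⟩
      rw [hm]; simp
  rw [Finset.sum_image (fun a _ b _ hab => h.inj hab), Finset.card_univ, ZMod.card] at h1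
  exact h1.symm

end Cyc

/-- the final count -/
theorem count_false (mv m0 : ZMod q) (OL IL BL : ZMod q → ℕ) (n : Fin 4 → ℕ)
    (hOL : ∑ m, OL m = q) (hIL : ∑ m, IL m = q) (dV : ZMod q → ℤ × ZMod 2)
    (dT : Fin 4 → ℤ × ZMod 2) (DV : ZMod q → ℕ) (DT : Fin 4 → ℕ)
    (hV1 : ∀ m, 2 * (dV m).1 = (OL m : ℤ) - IL m - 2 * DV m)
    (hV2 : ∀ m, (dV m).2 = (if m = m0 then (BL m : ZMod 2) else 1 + (IL m : ZMod 2))
      + DV m * (BL m : ZMod 2))
    (hV3 : 1 ≤ DV mv) (hbl : BL mv = 0)
    (hT : ∀ i, dT i = (1 - (DT i : ℤ), DT i * (n i : ZMod 2)))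
    (hT3 : 1 ≤ DT 0) (hn : n 0 = BL m0 + IL m0)
    (hsum : ∑ m, dV m + (∑ _b : Bool, ((-1, 0) : ℤ × ZMod 2) + ∑ i, dT i) = 0) : False := by
  classical
  have e1 := congrArg Prod.fst hsum
  have e2 := congrArg Prod.snd hsum
  rw [Prod.fst_add, Prod.fst_add, Prod.fst_sum, Prod.fst_sum, Prod.fst_sum] at e1
  rw [Prod.snd_add, Prod.snd_add, Prod.snd_sum, Prod.snd_sum, Prod.snd_sum] at e2
  simp only [hT, Fin.sum_univ_four, Finset.sum_const, Finset.card_univ, Fintype.card_bool,
    Prod.fst_zero, Prod.snd_zero, smul_zero, zero_add] at e1 e2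
  have hOL' : ∑ m, (OL m : ℤ) = q := by exact_mod_cast hOL
  have hIL' : ∑ m, (IL m : ℤ) = q := by exact_mod_cast hIL
  have e3 : 2 * ∑ m, (dV m).1 = - 2 * ∑ m, (DV m : ℤ) := by
    rw [Finset.mul_sum, Finset.sum_congr rfl (fun m _ => hV1 m), Finset.sum_sub_distrib,
      Finset.sum_sub_distrib, hOL', hIL', ← Finset.mul_sum]
    ring
  have e4 : (∑ m, DV m) + (DT 0 + DT 1 + DT 2 + DT 3) = 2 := by
    have : ((∑ m, DV m : ℕ) : ℤ) = ∑ m, (DV m : ℤ) := by push_cast; rfl
    have h2 : (((∑ m, DV m) + (DT 0 + DT 1 + DT 2 + DT 3) : ℕ) : ℤ) = 2 := by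
      push_cast
      simp only [nsmul_eq_mul] at e1
      push_cast at e1
      linarith
    exact_mod_cast h2
  have e5 : DV mv + ∑ m ∈ Finset.univ.erase mv, DV m = ∑ m, DV m :=
    Finset.add_sum_erase _ _ (Finset.mem_univ mv)
  have e6 : ∑ m ∈ Finset.univ.erase mv, DV m = 0 := by omega
  have e7 : ∀ m, m ≠ mv → DV m = 0 := by
    intro m hm
    exact Finset.sum_eq_zero_iff.1 e6 m (Finset.mem_erase.2 ⟨hm, Finset.mem_univ _⟩)
  have t0 : DT 0 = 1 := by omega
  have t1 : DT 1 = 0 := by omega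
  have t2 : DT 2 = 0 := by omega
  have t3 : DT 3 = 0 := by omega
  have e8 : ∑ m, (dV m).2 = ((BL m0 : ZMod 2) - (1 + (IL m0 : ZMod 2)))
      + ∑ m, (1 + (IL m : ZMod 2)) := by
    have hterm : ∀ m, (dV m).2 = (if m = m0 then ((BL m0 : ZMod 2) - (1 + (IL m0 : ZMod 2)))
        else 0) + (1 + (IL m : ZMod 2)) := by
      intro m
      rw [hV2 m]
      have hz : (DV m : ZMod 2) * (BL m : ZMod 2) = 0 := by
        by_cases hm : m = mv
        · rw [hm, hbl]; simp
        · rw [e7 m hm]; simp
      rw [hz]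
      by_cases hm : m = m0
      · rw [if_pos hm, if_pos hm, hm]; ring
      · rw [if_neg hm, if_neg hm]; ring
    rw [Finset.sum_congr rfl (fun m _ => hterm m), Finset.sum_add_distrib, Finset.sum_ite_eq']
    simp
  have e9 : ∑ m : ZMod q, (1 + (IL m : ZMod 2)) = (q : ZMod 2) + (q : ZMod 2) := by
    rw [Finset.sum_add_distrib]
    have : ∑ m, (IL m : ZMod 2) = (q : ZMod 2) := by exact_mod_cast congrArg (Nat.cast : ℕ → ZMod 2) hIL
    rw [this]; simp [ZMod.card]
  rw [e8, e9, t0, t1, t2, t3, hn] at e2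
  push_cast at e2
  revert e2
  generalize (BL m0 : ZMod 2) = a
  generalize (IL m0 : ZMod 2) = b
  generalize (q : ZMod 2) = c
  generalize (n 1 : ZMod 2) = d
  generalize (n 2 : ZMod 2) = e
  generalize (n 3 : ZMod 2) = f
  revert a b c d e f
  decide

end Pool.Agent.H63.EQ
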