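import Pool.Agent.H63.EQ.Func

/-!
# The jump of the functionals at a vertex: the combinatorial core
-/

namespace Pool.Agent.H63.EQ
open Filter Topology Pool.Agent.H58.EQ

theorem core_LL (β k : ZMod 2) (v : ℂ) (a b : ℂ × ZMod 2) (ha : 0 < dt a.1 v) (hb : 0 < dt b.1 v) :
    ∃ D : ℕ, asc [a.1, v, v, b.1] - asc [a.1, b.1] = 1 - (D : ℤ) ∧
      ts β [a, (v, k), (v, k), b] - ts β [a, b] = D * β + β ∧
      (0 < dt a.1 b.1 → 1 ≤ D) := by
  have hvb : ¬ 0 < dt v b.1 := by rw [dt_anti]; linarith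
  have hvv : ¬ 0 < dt v v := by rw [dt_self]; exact lt_irrefl _
  refine ⟨if 0 < dt a.1 b.1 then 1 else 0, ?_, ?_, ?_⟩
  · simp only [asc_cons_cons, asc_singleton, if_pos ha, if_neg hvv, if_neg hvb]
    split_ifs <;> norm_num
  · simp only [ts_cons_cons, ts_single, tt, if_pos ha, if_neg hvv, if_neg hvb]
    have key : ∀ β k a2 b2 : ZMod 2, (β * (1 + a2 + k) + ((β + 1) * (0 + k + k)
        + ((β + 1 + 1) * (0 + k + b2) + 0))) - (β * (1 + a2 + b2) + 0) = 1 * β + β := by decide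
    have key' : ∀ β k a2 b2 : ZMod 2, (β * (1 + a2 + k) + ((β + 1) * (0 + k + k)
        + ((β + 1 + 1) * (0 + k + b2) + 0))) - (β * (0 + a2 + b2) + 0) = 0 * β + β := by decide
    split_ifs
    · rw [Nat.cast_one]; exact key β k a.2 b.2
    · rw [Nat.cast_zero]; exact key' β k a.2 b.2
  · intro h; rw [if_pos h]

theorem core_str (β k : ZMod 2) (v z : ℂ) (a b : ℂ × ZMod 2) (ha : 0 < dt a.1 v)
    (hb : 0 < dt b.1 v) (hz : 0 < dt z b.1) :
    ∃ D : ℕ, asc [a.1, v, b.1] - asc [a.1, z, b.1] = - (D : ℤ) ∧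
      ts β [a, (v, k), b] - ts β [a, (z, k + 1), b] = D * β ∧
      (0 < dt a.1 z → 1 ≤ D) := by
  have hvb : ¬ 0 < dt v b.1 := by rw [dt_anti]; linarith
  refine ⟨if 0 < dt a.1 z then 1 else 0, ?_, ?_, ?_⟩
  · simp only [asc_cons_cons, asc_singleton, if_pos ha, if_neg hvb, if_pos hz]
    split_ifs <;> norm_num
  · simp only [ts_cons_cons, ts_single, tt, if_pos ha, if_neg hvb, if_pos hz]
    have key : ∀ β k a2 b2 : ZMod 2, (β * (1 + a2 + k) + ((β + 1) * (0 + k + b2) + 0))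
        - (β * (1 + a2 + (k + 1)) + ((β + 1) * (1 + (k + 1) + b2) + 0)) = 1 * β := by decide
    have key' : ∀ β k a2 b2 : ZMod 2, (β * (1 + a2 + k) + ((β + 1) * (0 + k + b2) + 0))
        - (β * (0 + a2 + (k + 1)) + ((β + 1) * (1 + (k + 1) + b2) + 0)) = 0 * β := by decide
    split_ifs
    · rw [Nat.cast_one]; exact key β k a.2 b.2
    · rw [Nat.cast_zero]; exact key' β k a.2 b.2
  · intro h; rw [if_pos h]

theorem core_RR (β k : ZMod 2) (z z' : ℂ) (a b : ℂ × ZMod 2)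
    (hzz : 0 < dt z z') (hz : 0 < dt z' b.1) :
    ∃ D : ℕ, asc [a.1, b.1] - asc [a.1, z, z', b.1] = - 1 - (D : ℤ) ∧
      ts β [a, b] - ts β [a, (z, k + 1), (z', k + 1), b] = D * β + (β + 1) ∧
      (0 < dt a.1 b.1 → 0 < dt a.1 z → 1 ≤ D) := by
  refine ⟨(if 0 < dt a.1 z then 1 else 0) + (if 0 < dt a.1 b.1 then 0 else 1), ?_, ?_, ?_⟩
  · simp only [asc_cons_cons, asc_singleton, if_pos hzz, if_pos hz]
    split_ifs <;> norm_num
  · simp only [ts_cons_cons, ts_single, tt, if_pos hzz, if_pos hz]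
    have k11 : ∀ β k a2 b2 : ZMod 2, (β * (1 + a2 + b2) + 0) - (β * (1 + a2 + (k + 1))
        + ((β + 1) * (1 + (k + 1) + (k + 1)) + ((β + 1 + 1) * (1 + (k + 1) + b2) + 0)))
        = ((1 : ℕ) + (0 : ℕ)) * β + (β + 1) := by decide
    have k10 : ∀ β k a2 b2 : ZMod 2, (β * (0 + a2 + b2) + 0) - (β * (1 + a2 + (k + 1))
        + ((β + 1) * (1 + (k + 1) + (k + 1)) + ((β + 1 + 1) * (1 + (k + 1) + b2) + 0)))
        = ((1 : ℕ) + (1 : ℕ)) * β + (β + 1) := by decide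
    have k01 : ∀ β k a2 b2 : ZMod 2, (β * (1 + a2 + b2) + 0) - (β * (0 + a2 + (k + 1))
        + ((β + 1) * (1 + (k + 1) + (k + 1)) + ((β + 1 + 1) * (1 + (k + 1) + b2) + 0)))
        = ((0 : ℕ) + (0 : ℕ)) * β + (β + 1) := by decide
    have k00 : ∀ β k a2 b2 : ZMod 2, (β * (0 + a2 + b2) + 0) - (β * (0 + a2 + (k + 1))
        + ((β + 1) * (1 + (k + 1) + (k + 1)) + ((β + 1 + 1) * (1 + (k + 1) + b2) + 0)))
        = ((0 : ℕ) + (1 : ℕ)) * β + (β + 1) := by decide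
    rw [Nat.cast_add]
    by_cases h1 : 0 < dt a.1 z <;> by_cases h2 : 0 < dt a.1 b.1
    · simp only [if_pos h1, if_pos h2]; exact k11 β k a.2 b.2
    · simp only [if_pos h1, if_neg h2]; exact k10 β k a.2 b.2
    · simp only [if_neg h1, if_pos h2]; exact k01 β k a.2 b.2
    · simp only [if_neg h1, if_neg h2]; exact k00 β k a.2 b.2
  · intro h h'; rw [if_pos h, if_pos h']

end Pool.Agent.H63.EQ
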