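import Pool.Agent.H63.EQ.Lists

/-!
# Webs which are single closed polygons: indices, parities, and the vertex jump for lists
-/

namespace Pool.Agent.H63.EQ
open Filter Topology Pool.Agent.H58.EQ

variable {q : ℕ} [NeZero q]

/-- The web `W` is the closed polygon with vertices `A 0, A 1, ..., A (q-1)`. -/
structure Cyc (W : Web (ZMod q)) (A : ZMod q → ℂ) : Prop where
  inj : Function.Injective A
  even : 2 ∣ q
  lr : ∀ i, (W.L i = A i ∧ W.R i = A (i + 1)) ∨ (W.L i = A (i + 1) ∧ W.R i = A i)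

/-- the direction bit of a chord -/
noncomputable def pb (W : Web (ZMod q)) (A : ZMod q → ℂ) (i : ZMod q) : ZMod 2 :=
  if W.L i = A i then 1 else 0

/-- the colour of (the left end of) a chord -/
noncomputable def col (W : Web (ZMod q)) (A : ZMod q → ℂ) (h : 2 ∣ q) (i : ZMod q) : ZMod 2 :=
  ZMod.castHom h (ZMod 2) i + 1 + pb W A i

/-- the coloured label of a chord -/
noncomputable def lab (W : Web (ZMod q)) (A : ZMod q → ℂ) (h : 2 ∣ q) (i : ZMod q) : ℂ × ZMod 2 :=
  (W.L i, col W A h i)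

/-- the index of a chord, starting at `m0` -/
def idx (m0 i : ZMod q) : ℕ := (i - m0).val

namespace Cyc

variable {W : Web (ZMod q)} {A : ZMod q → ℂ} (h : Cyc W A)

include h

theorem one_lt : 1 < q := by
  obtain ⟨k, hk⟩ := h.even
  have : q ≠ 0 := NeZero.ne q
  omega

theorem one_ne : (1 : ZMod q) ≠ 0 := by
  have := h.one_lt
  have : Fact (1 < q) := ⟨this⟩
  exact one_ne_zero

theorem succ_ne (m : ZMod q) : m + 1 ≠ m := by
  intro h1; exact h.one_ne (by simpa using h1)

theorem R_eq {e m : ZMod q} (he : W.R e = A m) :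
    ((e = m - 1 ∧ pb W A e = 1) ∨ (e = m ∧ pb W A e = 0)) ∧
      col W A h.even e = ZMod.castHom h.even (ZMod 2) m + 1 := by
  rcases h.lr e with ⟨h1, h2⟩ | ⟨h1, h2⟩
  · have h3 : e + 1 = m := h.inj (by rw [← h2, he])
    have hp : pb W A e = 1 := by unfold pb; rw [if_pos h1]
    refine ⟨Or.inl ⟨by rw [← h3]; ring, hp⟩, ?_⟩
    unfold col
    rw [hp, ← h3, map_add, map_one]
  · have h3 : e = m := h.inj (by rw [← h2, he])
    have hp : pb W A e = 0 := by
      unfold pb; rw [if_neg]; rw [h1]; intro h4; exact h.succ_ne e (h.inj h4)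
    refine ⟨Or.inr ⟨h3, hp⟩, ?_⟩
    unfold col
    rw [hp, h3, add_zero]

theorem L_eq {e m : ZMod q} (he : W.L e = A m) :
    ((e = m - 1 ∧ pb W A e = 0) ∨ (e = m ∧ pb W A e = 1)) ∧
      col W A h.even e = ZMod.castHom h.even (ZMod 2) m := by
  rcases h.lr e with ⟨h1, h2⟩ | ⟨h1, h2⟩
  · have h3 : e = m := h.inj (by rw [← h1, he])
    have hp : pb W A e = 1 := by unfold pb; rw [if_pos h1]
    refine ⟨Or.inr ⟨h3, hp⟩, ?_⟩
    unfold col
    rw [hp, h3, add_assoc]
    have : (1 : ZMod 2) + 1 = 0 := by decide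
    rw [this, add_zero]
  · have h3 : e + 1 = m := h.inj (by rw [← h1, he])
    have hp : pb W A e = 0 := by
      unfold pb; rw [if_neg]; rw [h1]; intro h4; exact h.succ_ne e (h.inj h4)
    refine ⟨Or.inl ⟨by rw [← h3]; ring, hp⟩, ?_⟩
    unfold col
    rw [hp, ← h3, map_add, map_one, add_zero]

theorem end_self (m : ZMod q) : W.L m = A m ∨ W.R m = A m := by
  rcases h.lr m with h1 | h1
  · exact Or.inl h1.1
  · exact Or.inr h1.2

theorem end_pred (m : ZMod q) : W.L (m - 1) = A m ∨ W.R (m - 1) = A m := by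
  rcases h.lr (m - 1) with h1 | h1
  · rw [sub_add_cancel] at h1; exact Or.inr h1.2
  · rw [sub_add_cancel] at h1; exact Or.inl h1.1

/-- a chord passing over the ray of `A m` is not one of the two chords at `A m` -/
theorem ne_of_cr {f m : ZMod q} (hf : W.cr f (A m)) : f ≠ m ∧ f ≠ m - 1 := by
  constructor
  · rintro rfl
    rcases h.end_self f with h1 | h1
    · have := hf.1; rw [h1, dt_self] at this; exact lt_irrefl _ this
    · have := hf.2; rw [h1, dt_self] at this; exact lt_irrefl _ this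
  · rintro rfl
    rcases h.end_pred m with h1 | h1
    · have := hf.1; rw [h1, dt_self] at this; exact lt_irrefl _ this
    · have := hf.2; rw [h1, dt_self] at this; exact lt_irrefl _ this

omit h in
theorem idx_inj {m0 i j : ZMod q} (hij : idx m0 i = idx m0 j) : i = j := by
  unfold idx at hij
  have := ZMod.val_injective q hij
  exact sub_left_injective this

theorem idx_self (m0 : ZMod q) : idx m0 m0 = 0 := by
  unfold idx; rw [sub_self, ZMod.val_zero]

theorem idx_pred {m0 m : ZMod q} (hm : m ≠ m0) : idx m0 (m - 1) + 1 = idx m0 m := by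
  unfold idx
  have e : m - 1 - m0 = (m - m0) - 1 := by ring
  rw [e]
  have hne : m - m0 ≠ 0 := sub_ne_zero.2 hm
  have h1 : 1 < q := h.one_lt
  have hv : 1 ≤ (m - m0).val := by
    rw [Nat.one_le_iff_ne_zero]
    intro h0; exact hne ((ZMod.val_eq_zero _).1 h0)
  have : Fact (1 < q) := ⟨h1⟩
  have h2 : ((m - m0) - 1).val = (m - m0).val - (1 : ZMod q).val := by
    apply ZMod.val_sub
    rw [ZMod.val_one]; exact hv
  rw [h2, ZMod.val_one]; omega

theorem idx_last (m0 : ZMod q) : idx m0 (m0 - 1) + 1 = q := by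
  unfold idx
  have e : m0 - 1 - m0 = -1 := by ring
  rw [e]
  obtain ⟨n, hn⟩ : ∃ n, q = n + 1 := ⟨q - 1, by have := h.one_lt; omega⟩
  subst hn
  rw [ZMod.val_neg_one]

omit h in
theorem idx_lt (m0 i : ZMod q) : idx m0 i < q := ZMod.val_lt _

theorem io_facts {m0 m : ZMod q} (hm : m ≠ m0) :
    io (idx m0 (m - 1)) (idx m0 m) = 1 ∧ io (idx m0 m) (idx m0 (m - 1)) = 0 ∧
    ∀ f, f ≠ m → f ≠ m - 1 → io (idx m0 f) (idx m0 m) = io (idx m0 f) (idx m0 (m - 1)) ∧
      io (idx m0 m) (idx m0 f) = io (idx m0 (m - 1)) (idx m0 f) := by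
  have h1 := h.idx_pred hm
  unfold io
  refine ⟨?_, ?_, ?_⟩
  · rw [if_pos (by omega)]
  · rw [if_neg (by omega)]
  · intro f hf1 hf2
    have h2 : idx m0 f ≠ idx m0 m := fun hh => hf1 (idx_inj hh)
    have h3 : idx m0 f ≠ idx m0 (m - 1) := fun hh => hf2 (idx_inj hh)
    constructor
    · by_cases hlt : idx m0 f < idx m0 m
      · rw [if_pos hlt, if_pos (by omega)]
      · rw [if_neg hlt, if_neg (by omega)]
    · by_cases hlt : idx m0 m < idx m0 f
      · rw [if_pos hlt, if_pos (by omega)]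
      · rw [if_neg hlt, if_neg (by omega)]

theorem io_facts_top (m0 : ZMod q) :
    io (idx m0 (m0 - 1)) (idx m0 m0) = 0 ∧ io (idx m0 m0) (idx m0 (m0 - 1)) = 1 ∧
    ∀ f, f ≠ m0 → f ≠ m0 - 1 → io (idx m0 f) (idx m0 m0) = 0 ∧
      io (idx m0 f) (idx m0 (m0 - 1)) = 1 := by
  have h1 := h.idx_last m0
  have h0 := h.idx_self m0
  have hq := h.one_lt
  unfold io
  refine ⟨?_, ?_, ?_⟩
  · rw [if_neg (by omega)]
  · rw [if_pos (by omega)]
  · intro f hf1 hf2
    have h2 : idx m0 f ≠ idx m0 m0 := fun hh => hf1 (idx_inj hh)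
    have h3 : idx m0 f ≠ idx m0 (m0 - 1) := fun hh => hf2 (idx_inj hh)
    have h4 := idx_lt m0 f
    constructor
    · rw [if_neg (by omega)]
    · rw [if_pos (by omega)]

/-- the jump of the auxiliary functionals at a vertex -/
theorem NM_jump (m0 m : ZMod q) (B Ab I O : List (ZMod q))
    (hB : ∀ e ∈ B, W.cr e (A m)) (hAb : ∀ e ∈ Ab, W.cr e (A m))
    (hI : ∀ e, e ∈ I ↔ W.R e = A m) (hO : ∀ e, e ∈ O ↔ W.L e = A m)
    (hIn : I.Nodup) (hOn : O.Nodup) (hlen : I.length + O.length = 2)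
    (htop : m = m0 → Ab = [] ∧ I ≠ []) :
    NM (idx m0) (pb W A) (B ++ (O ++ Ab)) - NM (idx m0) (pb W A) (B ++ (I ++ Ab))
      = if m = m0 then (if O = [] then 1 else (B.length : ZMod 2))
        else (if I = [] then 1 + (B.length : ZMod 2) else
          if O = [] then (B.length : ZMod 2) else 0) := by
  have hBne := fun f hf => h.ne_of_cr (hB f hf)
  have hAne := fun f hf => h.ne_of_cr (hAb f hf)
  match I, O, hlen with
  | [], [c, d], _ =>
    have hm : m ≠ m0 := by
      intro hm; exact (htop hm).2 rfl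
    rw [if_neg hm, if_pos rfl]
    obtain ⟨f1, f2, f3⟩ := h.io_facts hm
    have hc := (h.L_eq ((hO c).1 (by simp))).1
    have hd := (h.L_eq ((hO d).1 (by simp))).1
    have hcd : c ≠ d := by
      have := hOn; simp at this; exact this
    rcases hc with ⟨hc, hpc⟩ | ⟨hc, hpc⟩ <;> rcases hd with ⟨hd, hpd⟩ | ⟨hd, hpd⟩
    · exact absurd (hc.trans hd.symm) hcd
    · rw [NM_fold, hpc, hpd, hc, hd, f1]
      · ring
      · intro f hf; rw [hc, hd]; exact ((f3 f (hBne f hf).1 (hBne f hf).2).1).symm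
      · intro f hf; rw [hc, hd]; exact ((f3 f (hAne f hf).1 (hAne f hf).2).2).symm
    · rw [NM_fold, hpc, hpd, hc, hd, f2]
      · ring
      · intro f hf; rw [hc, hd]; exact ((f3 f (hBne f hf).1 (hBne f hf).2).1)
      · intro f hf; rw [hc, hd]; exact ((f3 f (hAne f hf).1 (hAne f hf).2).2)
    · exact absurd (hc.trans hd.symm) hcd
  | [c], [d], _ =>
    have hc := (h.R_eq ((hI c).1 (by simp))).1
    have hd := (h.L_eq ((hO d).1 (by simp))).1
    have hne : c ≠ d := by
      rintro rfl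
      have h1 := (hI c).1 (by simp)
      have h2 := (hO c).1 (by simp)
      have := W.pos c
      rw [h1, h2, dt_self] at this; exact lt_irrefl _ this
    by_cases hm : m = m0
    · rw [if_pos hm, if_neg (by simp)]
      obtain ⟨hAn, _⟩ := htop hm
      subst hm
      obtain ⟨f1, f2, f3⟩ := h.io_facts_top m
      rw [hAn]
      rcases hc with ⟨hc, hpc⟩ | ⟨hc, hpc⟩ <;> rcases hd with ⟨hd, hpd⟩ | ⟨hd, hpd⟩
      · exact absurd (hc.trans hd.symm) hne
      · rw [NM_str_top _ _ _ _ _ _ (by rw [hpc, hpd])]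
        intro f hf; rw [hc, hd, (f3 f (hBne f hf).1 (hBne f hf).2).1,
          (f3 f (hBne f hf).1 (hBne f hf).2).2]; decide
      · rw [NM_str_top _ _ _ _ _ _ (by rw [hpc, hpd])]
        intro f hf; rw [hc, hd, (f3 f (hBne f hf).1 (hBne f hf).2).1,
          (f3 f (hBne f hf).1 (hBne f hf).2).2]; decide
      · exact absurd (hc.trans hd.symm) hne
    · rw [if_neg hm, if_neg (by simp), if_neg (by simp)]
      obtain ⟨f1, f2, f3⟩ := h.io_facts hm
      rcases hc with ⟨hc, hpc⟩ | ⟨hc, hpc⟩ <;> rcases hd with ⟨hd, hpd⟩ | ⟨hd, hpd⟩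
      · exact absurd (hc.trans hd.symm) hne
      · rw [NM_str _ _ _ _ _ _ _ _ (by rw [hpc, hpd])]
        · intro f hf; rw [hc, hd]; exact ((f3 f (hBne f hf).1 (hBne f hf).2).1).symm
        · intro f hf; rw [hc, hd]; exact ((f3 f (hAne f hf).1 (hAne f hf).2).2).symm
      · rw [NM_str _ _ _ _ _ _ _ _ (by rw [hpc, hpd])]
        · intro f hf; rw [hc, hd]; exact ((f3 f (hBne f hf).1 (hBne f hf).2).1)
        · intro f hf; rw [hc, hd]; exact ((f3 f (hAne f hf).1 (hAne f hf).2).2)
      · exact absurd (hc.trans hd.symm) hne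
  | [c, d], [], _ =>
    have hc := (h.R_eq ((hI c).1 (by simp))).1
    have hd := (h.R_eq ((hI d).1 (by simp))).1
    have hcd : c ≠ d := by
      have := hIn; simp at this; exact this
    have hz : ∀ x y : ZMod 2, x - y = y - x := by decide
    rw [hz]
    by_cases hm : m = m0
    · rw [if_pos hm, if_pos rfl]
      obtain ⟨hAn, _⟩ := htop hm
      subst hm
      obtain ⟨f1, f2, f3⟩ := h.io_facts_top m
      rw [hAn]
      have key : ∀ x : ZMod 2, x + 0 + (1 + x) * 1 + x * 0 = 1 ∧ x + 1 + (1 + x) * 0 + x * 1 = 1 := by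
        decide
      rcases hc with ⟨hc, hpc⟩ | ⟨hc, hpc⟩ <;> rcases hd with ⟨hd, hpd⟩ | ⟨hd, hpd⟩
      · exact absurd (hc.trans hd.symm) hcd
      · rw [NM_fold_top, hpc, hpd, hc, hd, f1]
        · exact (key _).1
        · intro f hf; rw [hc, hd, (f3 f (hBne f hf).1 (hBne f hf).2).1,
            (f3 f (hBne f hf).1 (hBne f hf).2).2]; decide
      · rw [NM_fold_top, hpc, hpd, hc, hd, f2]
        · exact (key _).2
        · intro f hf; rw [hc, hd, (f3 f (hBne f hf).1 (hBne f hf).2).1,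
            (f3 f (hBne f hf).1 (hBne f hf).2).2]; decide
      · exact absurd (hc.trans hd.symm) hcd
    · rw [if_neg hm, if_neg (by simp), if_pos rfl]
      obtain ⟨f1, f2, f3⟩ := h.io_facts hm
      have key : ∀ x : ZMod 2, 1 + (1 + x) * 1 + x * 0 = x ∧ 0 + (1 + x) * 0 + x * 1 = x := by
        decide
      rcases hc with ⟨hc, hpc⟩ | ⟨hc, hpc⟩ <;> rcases hd with ⟨hd, hpd⟩ | ⟨hd, hpd⟩
      · exact absurd (hc.trans hd.symm) hcd
      · rw [NM_fold, hpc, hpd, hc, hd, f1]
        · exact (key _).1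
        · intro f hf; rw [hc, hd]; exact ((f3 f (hBne f hf).1 (hBne f hf).2).1).symm
        · intro f hf; rw [hc, hd]; exact ((f3 f (hAne f hf).1 (hAne f hf).2).2).symm
      · rw [NM_fold, hpc, hpd, hc, hd, f2]
        · exact (key _).2
        · intro f hf; rw [hc, hd]; exact ((f3 f (hBne f hf).1 (hBne f hf).2).1)
        · intro f hf; rw [hc, hd]; exact ((f3 f (hAne f hf).1 (hAne f hf).2).2)
      · exact absurd (hc.trans hd.symm) hcd
  | [], [], h => simp at h
  | [], [_], h => simp at h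
  | [], _ :: _ :: _ :: _, h => simp at h
  | [_], [], h => simp at h
  | [_], _ :: _ :: _, h => simp at h; omega
  | [_, _], _ :: _, h => simp at h; try omega
  | _ :: _ :: _ :: _, _, h => simp at h; omega

end Cyc

end Pool.Agent.H63.EQ
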