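import Pool.Agent.H63.EQ.VJump

/-!
# The upper label and the events
-/

namespace Pool.Agent.H63.EQ
open Filter Topology Pool.Agent.H58.EQ

variable {q : ℕ} [NeZero q]

/-- The upper label: the last of the four vectors `w, iw, -w, -iw` before `x`, with its colour. -/
noncomputable def V1c (w x : ℂ) : ℂ × ZMod 2 :=
  if 0 < dt w x then (if 0 < dt (w * Complex.I) x then (w * Complex.I, 1) else (w, 0))
  else (if 0 < dt (w * Complex.I) x then (-w, 0) else (-(w * Complex.I), 1))

/-- one of the four coloured vectors -/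
def isW4 (w : ℂ) (p : ℂ × ZMod 2) : Prop :=
  p = (w, 0) ∨ p = (w * Complex.I, 1) ∨ p = (-w, 0) ∨ p = (-(w * Complex.I), 1)

theorem mul_I_I (w : ℂ) : w * Complex.I * Complex.I = -w := by
  rw [mul_assoc, Complex.I_mul_I]; ring

theorem mul_negI_I (w : ℂ) : w * (-Complex.I) * Complex.I = w := by
  have : w * (-Complex.I) * Complex.I = -(w * (Complex.I * Complex.I)) := by ring
  rw [this, Complex.I_mul_I]; ring

theorem V1c_eq {w x : ℂ} {p : ℂ × ZMod 2} (h : isW4 w p) (h1 : 0 < dt p.1 x)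
    (h2 : 0 < dt x (p.1 * Complex.I)) : V1c w x = p := by
  unfold V1c
  rcases h with rfl | rfl | rfl | rfl
  · simp only at h1 h2
    rw [if_pos h1, if_neg]
    rw [dt_anti]; linarith
  · simp only at h1 h2
    rw [mul_I_I, dt_neg_right, ← dt_anti] at h2
    rw [if_pos h2, if_pos h1]
  · simp only at h1 h2
    rw [dt_neg_left] at h1
    have e : -w * Complex.I = -(w * Complex.I) := by ring
    rw [e, dt_neg_right, ← dt_anti] at h2
    rw [if_neg (by linarith), if_pos h2]
  · simp only at h1 h2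
    rw [dt_neg_left] at h1
    have e : -(w * Complex.I) * Complex.I = w := by
      have : -(w * Complex.I) * Complex.I = -(w * Complex.I * Complex.I) := by ring
      rw [this, mul_I_I, neg_neg]
    rw [e, dt_anti] at h2
    rw [if_neg (by linarith), if_neg (by linarith)]

theorem V1c_spec (w x : ℂ) (h1 : dt w x ≠ 0) (h2 : dt (w * Complex.I) x ≠ 0) :
    isW4 w (V1c w x) ∧ 0 < dt (V1c w x).1 x ∧ 0 < dt x ((V1c w x).1 * Complex.I) := by
  unfold V1c
  by_cases k1 : 0 < dt w x <;> by_cases k2 : 0 < dt (w * Complex.I) x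
  · rw [if_pos k1, if_pos k2]
    refine ⟨Or.inr (Or.inl rfl), k2, ?_⟩
    rw [mul_I_I, dt_neg_right, ← dt_anti]; exact k1
  · rw [if_pos k1, if_neg k2]
    refine ⟨Or.inl rfl, k1, ?_⟩
    have : dt (w * Complex.I) x < 0 := lt_of_le_of_ne (not_lt.1 k2) h2
    simp only
    rw [dt_anti]; linarith
  · rw [if_neg k1, if_pos k2]
    have k1' : dt w x < 0 := lt_of_le_of_ne (not_lt.1 k1) h1
    refine ⟨Or.inr (Or.inr (Or.inl rfl)), ?_, ?_⟩
    · simp only; rw [dt_neg_left]; linarith
    · have e : -w * Complex.I = -(w * Complex.I) := by ring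
      simp only
      rw [e, dt_neg_right, ← dt_anti]; exact k2
  · rw [if_neg k1, if_neg k2]
    have k1' : dt w x < 0 := lt_of_le_of_ne (not_lt.1 k1) h1
    have k2' : dt (w * Complex.I) x < 0 := lt_of_le_of_ne (not_lt.1 k2) h2
    refine ⟨Or.inr (Or.inr (Or.inr rfl)), ?_, ?_⟩
    · simp only; rw [dt_neg_left]; linarith
    · have e : -(w * Complex.I) * Complex.I = w := by
        have : -(w * Complex.I) * Complex.I = -(w * Complex.I * Complex.I) := by ring
        rw [this, mul_I_I, neg_neg]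
      simp only
      rw [e, dt_anti]; linarith

theorem isW4_prev {w : ℂ} {p : ℂ × ZMod 2} (h : isW4 w p) :
    isW4 w (p.1 * (-Complex.I), p.2 + 1) := by
  have e0 : (1 : ZMod 2) + 1 = 0 := by decide
  rcases h with rfl | rfl | rfl | rfl
  · right; right; right
    simp only [zero_add, Prod.mk.injEq, and_true]; ring
  · left
    have : w * Complex.I * (-Complex.I) = -(w * Complex.I * Complex.I) := by ring
    simp only [e0, this, mul_I_I, neg_neg]
  · right; left
    simp only [zero_add, Prod.mk.injEq, and_true]; ring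
  · right; right; left
    have : -(w * Complex.I) * (-Complex.I) = w * Complex.I * Complex.I := by ring
    simp only [e0, this, mul_I_I]

theorem V1c_near (w : ℂ) (s : ℝ) (h1 : dt w (om s) ≠ 0) (h2 : dt (w * Complex.I) (om s) ≠ 0) :
    ∀ᶠ φ in 𝓝 s, V1c w (om φ) = V1c w (om s) := by
  obtain ⟨k1, k2, k3⟩ := V1c_spec w (om s) h1 h2
  set w' := V1c w (om s)
  filter_upwards [((continuous_dt_om_right w'.1).tendsto s).eventually (lt_mem_nhds k2),
    ((continuous_dt_om_left (w'.1 * Complex.I)).tendsto s).eventually (lt_mem_nhds k3)] with φ p q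
  exact V1c_eq k1 p q

theorem dt_self_I (z : ℂ) : dt z (z * Complex.I) = z.re ^ 2 + z.im ^ 2 := by
  unfold dt; simp; ring

theorem dt_self_I_pos {z : ℂ} (hz : z ≠ 0) : 0 < dt z (z * Complex.I) := by
  rw [dt_self_I]
  have := Complex.normSq_pos.2 hz
  rw [Complex.normSq_apply] at this; nlinarith

theorem dt_negI_self_pos {z : ℂ} (hz : z ≠ 0) : 0 < dt (z * (-Complex.I)) z := by
  have h := dt_self_I_pos hz
  have e : z * (-Complex.I) = -(z * Complex.I) := by ring
  rw [e, dt_neg_left, ← dt_anti]; exact h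

theorem V1c_left (w : ℂ) (p : ℂ × ZMod 2) (s : ℝ) (h : isW4 w p) (hs : om s = p.1) :
    ∀ᶠ φ in 𝓝[<] s, V1c w (om φ) = (p.1 * (-Complex.I), p.2 + 1) := by
  have hp : p.1 ≠ 0 := by rw [← hs]; exact om_ne_zero s
  have h0 : 0 < dt (p.1 * (-Complex.I)) (om s) := by rw [hs]; exact dt_negI_self_pos hp
  filter_upwards [sin_left s, nhdsWithin_le_nhds
    (((continuous_dt_om_right (p.1 * (-Complex.I))).tendsto s).eventually (lt_mem_nhds h0))]
    with φ a b
  refine V1c_eq (isW4_prev h) b ?_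
  simp only
  rw [mul_negI_I, ← hs]; exact a

theorem V1c_right (w : ℂ) (p : ℂ × ZMod 2) (s : ℝ) (h : isW4 w p) (hs : om s = p.1) :
    ∀ᶠ φ in 𝓝[>] s, V1c w (om φ) = p := by
  have hp : p.1 ≠ 0 := by rw [← hs]; exact om_ne_zero s
  have h0 : 0 < dt (om s) (p.1 * Complex.I) := by rw [hs]; exact dt_self_I_pos hp
  filter_upwards [sin_right s, nhdsWithin_le_nhds
    (((continuous_dt_om_left (p.1 * Complex.I)).tendsto s).eventually (lt_mem_nhds h0))]
    with φ a b
  refine V1c_eq h ?_ b
  rw [← hs]; exact a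

/-- if `0 < dt x p`, `0 < dt x (p (-i))` and `p` is in the quadrant of `w'` then `0 < dt x w'` -/
theorem dt_quad {w' p x : ℂ} (hp : p ≠ 0) (h1 : 0 < dt w' p) (h2 : 0 < dt p (w' * Complex.I))
    (h3 : 0 < dt x p) (h4 : 0 < dt x (p * (-Complex.I))) : 0 < dt x w' := by
  have hid : dt p (w' * Complex.I) * dt x p + dt w' p * dt x (p * (-Complex.I))
      = (p.re ^ 2 + p.im ^ 2) * dt x w' := by
    unfold dt
    simp only [Complex.mul_re, Complex.mul_im, Complex.I_re, Complex.I_im, Complex.neg_re,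
      Complex.neg_im]
    ring
  have hpos : 0 < dt p (w' * Complex.I) * dt x p + dt w' p * dt x (p * (-Complex.I)) :=
    add_pos (mul_pos h2 h3) (mul_pos h1 h4)
  rw [hid] at hpos
  have hs : 0 < p.re ^ 2 + p.im ^ 2 := by
    have := Complex.normSq_pos.2 hp
    rw [Complex.normSq_apply] at this
    nlinarith
  exact (pos_iff_pos_of_mul_pos hpos).1 hs

/-- rotating from `p` by less than `90°` stays after `w'` -/
theorem dt_quad' {w' : ℂ} {s η : ℝ} (h1 : 0 < dt w' (om s)) (h2 : 0 < dt (om s) (w' * Complex.I))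
    (hη0 : 0 < η) (hη : η < Real.pi / 3) : 0 < dt w' (om (s + η)) := by
  have hpi := Real.pi_pos
  have hsin : 0 < Real.sin η := Real.sin_pos_of_pos_of_lt_pi hη0 (by linarith)
  have hcos : 0 < Real.cos η := Real.cos_pos_of_mem_Ioo ⟨by linarith, by linarith⟩
  have hid : dt w' (om (s + η)) =
      Real.cos η * dt w' (om s) + Real.sin η * dt (om s) (w' * Complex.I) := by
    unfold dt om
    simp only [Complex.mul_re, Complex.mul_im, Complex.I_re, Complex.I_im, Real.cos_add,
      Real.sin_add]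
    ring
  rw [hid]; exact add_pos (mul_pos hcos h1) (mul_pos hsin h2)

/-- the state functional at the direction `x` -/
noncomputable def FS (W : Web (ZMod q)) (A : ZMod q → ℂ) (h : 2 ∣ q) (m0 : ZMod q) (u w x : ℂ) :
    ℤ × ZMod 2 := FF W A h m0 (V0 u x, 0) (V1c w x) (W.strands x)

theorem FS_const (W : Web (ZMod q)) (A : ZMod q → ℂ) (h : 2 ∣ q) (m0 : ZMod q) (u w : ℂ) (s : ℝ)
    (hs : ∀ v, W.vtx v → ¬ ∃ r : ℝ, 0 < r ∧ v = (r : ℂ) * om s)
    (hu : dt u (om s) ≠ 0) (h1 : dt w (om s) ≠ 0) (h2 : dt (w * Complex.I) (om s) ≠ 0) :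
    ∀ᶠ φ in 𝓝 s, FS W A h m0 u w (om φ) = FS W A h m0 u w (om s) := by
  filter_upwards [W.strands_const s hs, V0_near u s hu, V1c_near w s h1 h2] with φ p q r
  unfold FS; rw [p, q, r]

/-- the bottom event -/
theorem jumpAt_zero (W : Web (ZMod q)) (A : ZMod q → ℂ) (h : 2 ∣ q) (m0 : ZMod q) (u w : ℂ)
    (s : ℝ)
    (hs : ∀ v, W.vtx v → ¬ ∃ r : ℝ, 0 < r ∧ v = (r : ℂ) * om s)
    (hu : om s = u ∨ om s = -u) (h1 : dt w (om s) ≠ 0) (h2 : dt (w * Complex.I) (om s) ≠ 0) :
    JumpAt (FS W A h m0 u w) (om s) (-1, 0) := by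
  obtain ⟨b, Q, hb, hbm⟩ := exists_first' ((W.strands (om s)).map (lab W A h)) (V1c w (om s))
  have hbpos : 0 < dt b.1 (om s) := by
    rw [List.mem_map] at hbm
    rcases hbm with rfl | ⟨e, he, rfl⟩
    · exact (V1c_spec w (om s) h1 h2).2.1
    · exact ((W.mem_strands _ e).1 he).1
  refine ⟨s, rfl, FF W A h m0 (-om s, 0) (V1c w (om s)) (W.strands (om s)),
    FF W A h m0 (om s, 0) (V1c w (om s)) (W.strands (om s)), ?_, ?_, ?_⟩
  · filter_upwards [nhdsWithin_le_nhds (W.strands_const s hs), V0_left u s hu,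
      nhdsWithin_le_nhds (V1c_near w s h1 h2)] with φ p q r
    unfold FS; rw [p, q, r]
  · filter_upwards [nhdsWithin_le_nhds (W.strands_const s hs), V0_right u s hu,
      nhdsWithin_le_nhds (V1c_near w s h1 h2)] with φ p q r
    unfold FS; rw [p, q, r]
  · unfold FF full
    rw [hb]
    apply Prod.ext
    · simp only [Prod.fst_sub, List.map_cons]
      rw [asc_cons_cons, asc_cons_cons, dt_neg_left, dt_anti (om s) b.1, neg_neg, if_pos hbpos,
        if_neg (by linarith)]
      ring
    · simp only [Prod.snd_sub]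
      rw [ts_cons_cons, ts_cons_cons]
      ring

/-- the top event -/
theorem jumpAt_W (W : Web (ZMod q)) (A : ZMod q → ℂ) (h : 2 ∣ q) (m0 : ZMod q) (u w : ℂ)
    (p : ℂ × ZMod 2) (s : ℝ)
    (hs : ∀ v, W.vtx v → ¬ ∃ r : ℝ, 0 < r ∧ v = (r : ℂ) * om s)
    (hu : dt u (om s) ≠ 0) (hp : isW4 w p) (hsw : om s = p.1) :
    ∃ D : ℕ, JumpAt (FS W A h m0 u w) (om s) (1 - (D : ℤ), D * ((W.strands (om s)).length : ZMod 2)) ∧
      ((∃ B e, W.strands (om s) = B ++ [e] ∧ 0 < dt (W.L e) (p.1 * (-Complex.I))) → 1 ≤ D) := by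
  obtain ⟨P, a, k1, k2, k3, k4⟩ := exists_last' (V0 u (om s), (0 : ZMod 2))
    ((W.strands (om s)).map (lab W A h))
  have hapos : 0 < dt a.1 p.1 := by
    rw [← hsw]
    rcases k2 with rfl | hk
    · exact V0_pos hu
    · obtain ⟨e, he, rfl⟩ := List.mem_map.1 hk
      exact ((W.mem_strands _ e).1 he).1
  rw [List.length_map] at k4
  refine ⟨if 0 < dt a.1 (p.1 * (-Complex.I)) then 1 else 0, ⟨s, rfl,
    FF W A h m0 (V0 u (om s), 0) (p.1 * (-Complex.I), p.2 + 1) (W.strands (om s)),
    FF W A h m0 (V0 u (om s), 0) p (W.strands (om s)), ?_, ?_, ?_⟩, ?_⟩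
  · filter_upwards [nhdsWithin_le_nhds (W.strands_const s hs), nhdsWithin_le_nhds (V0_near u s hu),
      V1c_left w p s hp hsw] with φ p q r
    unfold FS; rw [p, q, r]
  · filter_upwards [nhdsWithin_le_nhds (W.strands_const s hs), nhdsWithin_le_nhds (V0_near u s hu),
      V1c_right w p s hp hsw] with φ p q r
    unfold FS; rw [p, q, r]
  · have hst : ∀ y : ℂ × ZMod 2, full W A h (V0 u (om s), 0) y (W.strands (om s))
        = P ++ a :: [y] := by
      intro y
      unfold full
      rw [← List.cons_append, k1]; simp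
    unfold FF
    rw [hst, hst]
    apply Prod.ext
    · simp only [Prod.fst_sub, List.map_append, List.map_cons, List.map_nil]
      rw [asc_append_cons, asc_append_cons (P.map Prod.fst) a.1 [p.1 * (-Complex.I)], asc_two,
        asc_two, if_pos hapos]
      split_ifs <;> push_cast <;> ring
    · simp only [Prod.snd_sub]
      rw [ts_append_cons, ts_append_cons 0 P a [(p.1 * (-Complex.I), p.2 + 1)], ts_cons_cons,
        ts_cons_cons, ts_single, ts_single, k4]
      simp only [tt, if_pos hapos]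
      generalize ((W.strands (om s)).length : ZMod 2) = n
      generalize ts 0 (P ++ [a]) = x
      generalize NM (idx m0) (pb W A) (W.strands (om s)) = y
      generalize a.2 = c
      generalize p.2 = c'
      have key1 : ∀ n x y c c' : ZMod 2, x + ((0 + n) * (1 + c + c') + 0) + y
          - (x + ((0 + n) * (1 + c + (c' + 1)) + 0) + y) = ((1 : ℕ) : ZMod 2) * n := by decide
      have key0 : ∀ n x y c c' : ZMod 2, x + ((0 + n) * (1 + c + c') + 0) + y
          - (x + ((0 + n) * (0 + c + (c' + 1)) + 0) + y) = ((0 : ℕ) : ZMod 2) * n := by decide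
      split_ifs
      · exact key1 n x y c c'
      · exact key0 n x y c c'
  · rintro ⟨B, e, hBe, hpos⟩
    have hae : a.1 = W.L e := by
      have h2 : P ++ [a] = ((V0 u (om s), (0 : ZMod 2)) :: B.map (lab W A h)) ++ [lab W A h e] := by
        rw [← k1, hBe]; simp
      have h3 := (List.append_inj' h2 rfl).2
      have h4 : a = lab W A h e := by simpa using h3
      rw [h4]; rfl
    rw [hae, if_pos hpos]

end Pool.Agent.H63.EQ
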