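import Pool.Agent.H58.EQ.Main

/-!
# Functionals of lists of strands with values in `ZMod 2`
-/

namespace Pool.Agent.H63.EQ
open Filter Topology Pool.Agent.H58.EQ

/-! ### the weighted sum over gaps -/

/-- The bit of a gap between two coloured labels. -/
noncomputable def tt (x y : ℂ × ZMod 2) : ZMod 2 := (if 0 < dt x.1 y.1 then 1 else 0) + x.2 + y.2

/-- Sum of the bits of the gaps with weights `a, a + 1, a, ...`. -/
noncomputable def ts : ZMod 2 → List (ℂ × ZMod 2) → ZMod 2
  | _, [] => 0
  | _, [_] => 0
  | a, x :: y :: l => a * tt x y + ts (a + 1) (y :: l)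

theorem ts_cons_cons (a : ZMod 2) (x y : ℂ × ZMod 2) (l : List (ℂ × ZMod 2)) :
    ts a (x :: y :: l) = a * tt x y + ts (a + 1) (y :: l) := by rw [ts]

theorem ts_single (a : ZMod 2) (x : ℂ × ZMod 2) : ts a [x] = 0 := by rw [ts]

theorem ts_append_cons (a : ZMod 2) (l : List (ℂ × ZMod 2)) (x : ℂ × ZMod 2)
    (r : List (ℂ × ZMod 2)) :
    ts a (l ++ x :: r) = ts a (l ++ [x]) + ts (a + (l.length : ZMod 2)) (x :: r) := by
  induction l generalizing a with
  | nil => simp [ts_single]
  | cons b l ih =>
    cases l with
    | nil =>
      simp only [List.nil_append, List.cons_append, ts_cons_cons, ts_single]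
      simp
    | cons c l =>
      simp only [List.cons_append, ts_cons_cons] at ih ⊢
      rw [ih]
      simp only [List.length_cons, Nat.cast_add, Nat.cast_one]
      ring_nf

/-! ### the number of increasing pairs -/

/-- indicator of `x < y` -/
def io (x y : ℕ) : ZMod 2 := if x < y then 1 else 0

/-- number of increasing pairs with first entry in `l` and second in `r` -/
def cross (l r : List ℕ) : ZMod 2 := (l.map fun x => (r.map fun y => io x y).sum).sum

/-- number of increasing pairs of positions -/
def ns : List ℕ → ZMod 2
  | [] => 0
  | x :: l => (l.map fun y => io x y).sum + ns l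

theorem cross_nil_left (r : List ℕ) : cross [] r = 0 := by simp [cross]

theorem cross_nil_right (l : List ℕ) : cross l [] = 0 := by simp [cross]

theorem cross_append_left (l l' r : List ℕ) : cross (l ++ l') r = cross l r + cross l' r := by
  simp [cross]

theorem cross_append_right (l r r' : List ℕ) : cross l (r ++ r') = cross l r + cross l r' := by
  unfold cross
  simp only [List.map_append, List.sum_append]
  rw [← List.sum_map_add]

theorem cross_single_left (x : ℕ) (r : List ℕ) : cross [x] r = (r.map fun y => io x y).sum := by
  simp [cross]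

theorem cross_single_right (l : List ℕ) (y : ℕ) : cross l [y] = (l.map fun x => io x y).sum := by
  simp [cross]

theorem ns_append (l r : List ℕ) : ns (l ++ r) = ns l + ns r + cross l r := by
  induction l with
  | nil => simp [ns, cross_nil_left]
  | cons x l ih =>
    have : x :: l = [x] ++ l := rfl
    rw [this, cross_append_left, cross_single_left]
    simp only [List.cons_append, List.nil_append, ns, List.map_append, List.sum_append]
    rw [ih]; ring

/-! ### the weighted sum of bits -/

/-- `a x₀ + (a+1) x₁ + (a+2) x₂ + ...` -/
def ms : ZMod 2 → List (ZMod 2) → ZMod 2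
  | _, [] => 0
  | a, x :: l => a * x + ms (a + 1) l

theorem ms_append (a : ZMod 2) (l r : List (ZMod 2)) :
    ms a (l ++ r) = ms a l + ms (a + (l.length : ZMod 2)) r := by
  induction l generalizing a with
  | nil => simp [ms]
  | cons x l ih =>
    simp only [List.cons_append, ms, ih, List.length_cons, Nat.cast_add, Nat.cast_one]
    ring_nf

end Pool.Agent.H63.EQ
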