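import Pool.Agent.H63.EQ.Core

/-!
# The jump of the functionals at a vertex: lists
-/

namespace Pool.Agent.H63.EQ
open Filter Topology Pool.Agent.H58.EQ

variable {E : Type}

theorem exists_last' {α : Type} (a : α) (l : List α) : ∃ P b, a :: l = P ++ [b] ∧
    (b = a ∨ b ∈ l) ∧ (l = [] → b = a) ∧ P.length = l.length := by
  obtain ⟨P, b, h⟩ := (List.eq_nil_or_concat (a :: l)).resolve_left (by simp)
  rw [List.concat_eq_append] at h
  refine ⟨P, b, h, ?_, ?_, ?_⟩
  · have : b ∈ a :: l := by rw [h]; simp
    exact List.mem_cons.1 this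
  · rintro rfl
    have h2 : [a] = P ++ [b] := h
    have h3 : b ∈ [a] := by rw [h2]; simp
    exact List.mem_singleton.1 h3
  · have := congrArg List.length h
    simp only [List.length_cons, List.length_append, List.length_nil, zero_add] at this
    omega

theorem exists_first' {α : Type} (l : List α) (a : α) : ∃ b Q, l ++ [a] = b :: Q ∧
    (b = a ∨ b ∈ l) := by
  cases l with
  | nil => exact ⟨a, [], rfl, Or.inl rfl⟩
  | cons b Q => exact ⟨b, Q ++ [a], rfl, Or.inr (by simp)⟩

theorem split (lab : E → ℂ × ZMod 2) (a0 a1 : ℂ × ZMod 2) (B A : List E) :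
    ∃ (a b : ℂ × ZMod 2) (tl : ZMod 2) (tr : ZMod 2 → ZMod 2) (hl hr : ℤ),
      (a = a0 ∨ ∃ e ∈ B, a = lab e) ∧ (B = [] → a = a0) ∧ (b = a1 ∨ ∃ e ∈ A, b = lab e) ∧
      ∀ X : List E,
        ts 0 (a0 :: ((B ++ (X ++ A)).map lab ++ [a1])) =
          tl + ts (B.length : ZMod 2) (a :: (X.map lab ++ [b])) + tr (X.length : ZMod 2) ∧
        asc ((a0 :: ((B ++ (X ++ A)).map lab ++ [a1])).map Prod.fst) =
          hl + asc ((a :: (X.map lab ++ [b])).map Prod.fst) + hr := by
  obtain ⟨P, a, h1, h2, h3, h4⟩ := exists_last' a0 (B.map lab)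
  obtain ⟨b, Q, k1, k2⟩ := exists_first' (A.map lab) a1
  refine ⟨a, b, ts 0 (P ++ [a]), fun x => ts ((B.length : ZMod 2) + (1 + x)) (b :: Q),
    asc ((P ++ [a]).map Prod.fst), asc ((b :: Q).map Prod.fst), ?_, ?_, ?_, ?_⟩
  · rcases h2 with h | h
    · exact Or.inl h
    · obtain ⟨e, he, h⟩ := List.mem_map.1 h
      exact Or.inr ⟨e, he, h.symm⟩
  · intro hB; exact h3 (by rw [hB]; rfl)
  · rcases k2 with h | h
    · exact Or.inl h
    · obtain ⟨e, he, h⟩ := List.mem_map.1 h
      exact Or.inr ⟨e, he, h.symm⟩
  · intro X
    have hst : a0 :: ((B ++ (X ++ A)).map lab ++ [a1]) = P ++ a :: (X.map lab ++ b :: Q) := by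
      have : a0 :: ((B ++ (X ++ A)).map lab ++ [a1])
        = (a0 :: B.map lab) ++ (X.map lab ++ (A.map lab ++ [a1])) := by simp
      rw [this, h1, k1]; simp
    have e2 : a :: (X.map lab ++ b :: Q) = (a :: X.map lab) ++ b :: Q := by simp
    constructor
    · rw [hst, ts_append_cons 0 P a, e2, ts_append_cons _ (a :: X.map lab) b Q, h4]
      simp only [List.length_cons, List.length_map, Nat.cast_add, Nat.cast_one, zero_add,
        List.cons_append]
      rw [add_assoc]
      congr 2
      ring_nf
    · rw [hst]
      simp only [List.map_append, List.map_cons, List.map_nil]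
      rw [asc_append_cons (P.map Prod.fst) a.1]
      have e3 : a.1 :: ((X.map lab).map Prod.fst ++ b.1 :: Q.map Prod.fst)
        = (a.1 :: (X.map lab).map Prod.fst) ++ b.1 :: Q.map Prod.fst := by simp
      rw [e3, asc_append_cons (a.1 :: (X.map lab).map Prod.fst) b.1 (Q.map Prod.fst)]
      simp only [List.cons_append]
      ring

/-- the two auxiliary functionals together -/
def NM (idx : E → ℕ) (pb : E → ZMod 2) (l : List E) : ZMod 2 := ns (l.map idx) + ms 1 (l.map pb)

theorem zmod2_add_self (x : ZMod 2) : x + x = 0 := by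
  revert x; decide

theorem zmod2_neg (x : ZMod 2) : -x = x := by
  revert x; decide

theorem zmod2_sub (x y : ZMod 2) : x - y = x + y := by
  revert x y; decide

theorem sum_map_congr {l : List E} {f g : E → ZMod 2} (h : ∀ e ∈ l, f e = g e) :
    (l.map f).sum = (l.map g).sum := by
  rw [List.map_congr_left h]

theorem sum_map_add_one {l : List E} {f g : E → ZMod 2} (h : ∀ e ∈ l, f e + g e = 1) :
    (l.map f).sum + (l.map g).sum = (l.length : ZMod 2) := by
  rw [← List.sum_map_add, List.map_congr_left h]
  simp

theorem NM_split (idx : E → ℕ) (pb : E → ZMod 2) (B X A : List E) :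
    NM idx pb (B ++ (X ++ A)) = (ns (B.map idx) + ns (A.map idx) + cross (B.map idx) (A.map idx)
      + ms 1 (B.map pb)) + (ns (X.map idx) + cross (B.map idx) (X.map idx)
      + cross (X.map idx) (A.map idx) + ms (1 + (B.length : ZMod 2)) (X.map pb))
      + ms (1 + (B.length : ZMod 2) + (X.length : ZMod 2)) (A.map pb) := by
  unfold NM
  simp only [List.map_append, ns_append, ms_append, cross_append_right, List.length_map]
  ring

/-- two strands appear or disappear at a vertex which is not the special one -/
theorem NM_fold (idx : E → ℕ) (pb : E → ZMod 2) (B A : List E) (c d : E)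
    (hB : ∀ f ∈ B, io (idx f) (idx c) = io (idx f) (idx d))
    (hA : ∀ f ∈ A, io (idx c) (idx f) = io (idx d) (idx f)) :
    NM idx pb (B ++ ([c, d] ++ A)) - NM idx pb (B ++ ([] ++ A))
      = io (idx c) (idx d) + (1 + (B.length : ZMod 2)) * pb c + (B.length : ZMod 2) * pb d := by
  rw [NM_split, NM_split]
  have e1 : cross (B.map idx) ([c, d].map idx) = 0 := by
    have : [c, d].map idx = [idx c] ++ [idx d] := rfl
    rw [this, cross_append_right, cross_single_right, cross_single_right]
    simp only [List.map_map, Function.comp_def]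
    rw [sum_map_congr hB]; exact zmod2_add_self _
  have e2 : cross ([c, d].map idx) (A.map idx) = 0 := by
    have : [c, d].map idx = [idx c] ++ [idx d] := rfl
    rw [this, cross_append_left, cross_single_left, cross_single_left]
    simp only [List.map_map, Function.comp_def]
    rw [sum_map_congr hA]; exact zmod2_add_self _
  have e3 : ns ([c, d].map idx) = io (idx c) (idx d) := by simp [ns]
  have e4 : ms (1 + (B.length : ZMod 2)) ([c, d].map pb)
      = (1 + (B.length : ZMod 2)) * pb c + (B.length : ZMod 2) * pb d := by
    simp only [List.map_cons, List.map_nil, ms, add_zero]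
    congr 2
    have : ∀ x : ZMod 2, 1 + x + 1 = x := by decide
    exact this _
  have e5 : (([c, d].length : ℕ) : ZMod 2) = (([] : List E).length : ZMod 2) := by
    simp only [List.length_cons, List.length_nil]; decide
  rw [e1, e2, e3, e4, e5]
  simp only [List.map_nil, cross_nil_left, cross_nil_right, ns, ms]
  ring

/-- a strand is replaced by another one at a vertex which is not the special one -/
theorem NM_str (idx : E → ℕ) (pb : E → ZMod 2) (B A : List E) (c d : E)
    (hB : ∀ f ∈ B, io (idx f) (idx c) = io (idx f) (idx d))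
    (hA : ∀ f ∈ A, io (idx c) (idx f) = io (idx d) (idx f)) (hp : pb c = pb d) :
    NM idx pb (B ++ ([d] ++ A)) - NM idx pb (B ++ ([c] ++ A)) = 0 := by
  rw [NM_split, NM_split]
  have e1 : cross (B.map idx) ([c].map idx) = cross (B.map idx) ([d].map idx) := by
    simp only [List.map_cons, List.map_nil, cross_single_right, List.map_map, Function.comp_def]
    exact sum_map_congr hB
  have e2 : cross ([c].map idx) (A.map idx) = cross ([d].map idx) (A.map idx) := by
    simp only [List.map_cons, List.map_nil, cross_single_left, List.map_map, Function.comp_def]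
    exact sum_map_congr hA
  have e4 : [c].map pb = [d].map pb := by simp [hp]
  rw [e1, e2, e4]
  simp only [List.map_cons, List.map_nil, ns, List.length_cons, List.length_nil]
  ring

/-- two strands appear or disappear at the special vertex -/
theorem NM_fold_top (idx : E → ℕ) (pb : E → ZMod 2) (B : List E) (c d : E)
    (hB : ∀ f ∈ B, io (idx f) (idx c) + io (idx f) (idx d) = 1) :
    NM idx pb (B ++ ([c, d] ++ [])) - NM idx pb (B ++ ([] ++ []))
      = (B.length : ZMod 2) + io (idx c) (idx d) + (1 + (B.length : ZMod 2)) * pb c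
        + (B.length : ZMod 2) * pb d := by
  rw [NM_split, NM_split]
  have e1 : cross (B.map idx) ([c, d].map idx) = (B.length : ZMod 2) := by
    have : [c, d].map idx = [idx c] ++ [idx d] := rfl
    rw [this, cross_append_right, cross_single_right, cross_single_right]
    simp only [List.map_map, Function.comp_def]
    exact sum_map_add_one hB
  have e3 : ns ([c, d].map idx) = io (idx c) (idx d) := by simp [ns]
  have e4 : ms (1 + (B.length : ZMod 2)) ([c, d].map pb)
      = (1 + (B.length : ZMod 2)) * pb c + (B.length : ZMod 2) * pb d := by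
    simp only [List.map_cons, List.map_nil, ms, add_zero]
    congr 2
    have : ∀ x : ZMod 2, 1 + x + 1 = x := by decide
    exact this _
  rw [e1, e3, e4]
  simp only [List.map_nil, cross_nil_left, cross_nil_right, ns, ms]
  ring

/-- a strand is replaced by another one at the special vertex -/
theorem NM_str_top (idx : E → ℕ) (pb : E → ZMod 2) (B : List E) (c d : E)
    (hB : ∀ f ∈ B, io (idx f) (idx c) + io (idx f) (idx d) = 1) (hp : pb c = pb d) :
    NM idx pb (B ++ ([d] ++ [])) - NM idx pb (B ++ ([c] ++ [])) = (B.length : ZMod 2) := by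
  rw [NM_split, NM_split, zmod2_sub]
  have e1 : cross (B.map idx) ([c].map idx) + cross (B.map idx) ([d].map idx)
      = (B.length : ZMod 2) := by
    simp only [List.map_cons, List.map_nil, cross_single_right, List.map_map, Function.comp_def]
    exact sum_map_add_one hB
  have e4 : [c].map pb = [d].map pb := by simp [hp]
  rw [← e1, e4]
  simp only [List.map_nil, cross_nil_right, ms, List.map_cons, ns]
  generalize cross (List.map idx B) [idx c] = x
  generalize cross (List.map idx B) [idx d] = y
  generalize ns (List.map idx B) = z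
  generalize ms 1 (List.map pb B) = t
  generalize (B.length : ZMod 2) = r
  generalize pb d = p
  revert x y z t r p; decide

end Pool.Agent.H63.EQ
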