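import Pool.Agent.H58.EQ.Sweep

/-!
# The exact sweep lemma on the circle, with values in an abelian group
-/

namespace Pool.Agent.H63.EQ
open Filter Topology Pool.Agent.H58.EQ

theorem om_shift_left {s b : ℝ} (h : om s = om b) {p : ℂ → Prop}
    (hp : ∀ᶠ φ in 𝓝[<] s, p (om φ)) : ∀ᶠ φ in 𝓝[<] b, p (om φ) := by
  obtain ⟨k, hk⟩ := om_eq_om h
  have ht : Tendsto (fun φ : ℝ => φ + k * (2 * Real.pi)) (𝓝[<] b) (𝓝[<] s) := by
    apply tendsto_nhdsWithin_of_tendsto_nhds_of_eventually_within
    · have hc : Continuous fun φ : ℝ => φ + k * (2 * Real.pi) := by fun_prop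
      have := hc.tendsto b
      have e : b + k * (2 * Real.pi) = s := by linarith
      rw [e] at this
      exact this.mono_left nhdsWithin_le_nhds
    · filter_upwards [self_mem_nhdsWithin] with φ hφ
      simp only [Set.mem_Iio] at hφ ⊢
      linarith
  filter_upwards [ht.eventually hp] with φ hφ
  rwa [om_add_int] at hφ

theorem om_shift_right {s b : ℝ} (h : om s = om b) {p : ℂ → Prop}
    (hp : ∀ᶠ φ in 𝓝[>] s, p (om φ)) : ∀ᶠ φ in 𝓝[>] b, p (om φ) := by
  obtain ⟨k, hk⟩ := om_eq_om h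
  have ht : Tendsto (fun φ : ℝ => φ + k * (2 * Real.pi)) (𝓝[>] b) (𝓝[>] s) := by
    apply tendsto_nhdsWithin_of_tendsto_nhds_of_eventually_within
    · have hc : Continuous fun φ : ℝ => φ + k * (2 * Real.pi) := by fun_prop
      have := hc.tendsto b
      have e : b + k * (2 * Real.pi) = s := by linarith
      rw [e] at this
      exact this.mono_left nhdsWithin_le_nhds
    · filter_upwards [self_mem_nhdsWithin] with φ hφ
      simp only [Set.mem_Ioi] at hφ ⊢
      linarith
  filter_upwards [ht.eventually hp] with φ hφ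
  rwa [om_add_int] at hφ

/-- The function `h` jumps by `d` at the direction `x`. -/
def JumpAt {G : Type} [AddCommGroup G] (h : ℂ → G) (x : ℂ) (d : G) : Prop :=
  ∃ s : ℝ, om s = x ∧ ∃ hl hr : G,
      (∀ᶠ φ in 𝓝[<] s, h (om φ) = hl) ∧ (∀ᶠ φ in 𝓝[>] s, h (om φ) = hr) ∧ hr - hl = d

/-- The exact sweep lemma on the circle.  `z j` are the directions of the events. -/
theorem circle_sweep_eq {G : Type} [AddCommGroup G] {J : Type} [Fintype J] (h : ℂ → G) (z : J → ℂ)
    (hinj : Function.Injective z) (δ : J → G)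
    (hconst : ∀ s : ℝ, (∀ j, om s ≠ z j) → ∀ᶠ φ in 𝓝 s, h (om φ) = h (om s))
    (hjump : ∀ j : J, JumpAt h (z j) (δ j)) :
    ∑ j, δ j = 0 := by
  classical
  have hz1 : ∀ j, ∃ t : ℝ, z j = om t := by
    intro j; obtain ⟨s, hs, _⟩ := hjump j; exact ⟨s, hs.symm⟩
  have hjump' : ∀ (s : ℝ) (j : J), om s = z j → ∃ hl hr : G,
      (∀ᶠ φ in 𝓝[<] s, h (om φ) = hl) ∧ (∀ᶠ φ in 𝓝[>] s, h (om φ) = hr) ∧ hr - hl = δ j := by
    intro s j hs
    obtain ⟨s', hs', hl, hr, h1, h2, h3⟩ := hjump j
    have e : om s' = om s := by rw [hs, hs']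
    exact ⟨hl, hr, om_shift_left (p := fun x => h x = hl) e h1,
      om_shift_right (p := fun x => h x = hr) e h2, h3⟩
  obtain ⟨a, ha⟩ := exists_nonevent z
  have hpi : (0 : ℝ) < 2 * Real.pi := by positivity
  -- representatives of the events
  have hτ : ∀ j, ∃ τ : ℝ, τ ∈ Set.Ioc a (a + 2 * Real.pi) ∧ om τ = z j := by
    intro j
    obtain ⟨t, ht⟩ := hz1 j
    refine ⟨toIocMod hpi a t, toIocMod_mem_Ioc hpi a t, ?_⟩
    rw [ht, toIocMod, sub_eq_add_neg, ← neg_smul, zsmul_eq_mul]
    exact om_add_int _ _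
  choose τ hτm hτz using hτ
  have huniq : ∀ b ∈ Set.Ioc a (a + 2 * Real.pi), ∀ j, om b = z j → τ j = b := by
    intro b hb j hj
    obtain ⟨k, hk⟩ := om_eq_om ((hτz j).trans hj.symm)
    have h1 := hτm j
    have hk0 : k = 0 := by
      by_contra hk0
      have h4 : (1 : ℝ) ≤ |(k : ℝ)| := by
        have : 1 ≤ |k| := Int.one_le_abs hk0
        exact_mod_cast this
      have h5 : |τ j - b| = 2 * Real.pi * |(k : ℝ)| := by
        rw [hk, abs_mul, abs_of_pos hpi]
      have h6 : |τ j - b| < 2 * Real.pi := by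
        rw [abs_lt]
        constructor <;> linarith [h1.1, h1.2, hb.1, hb.2]
      nlinarith
    rw [hk0] at hk
    simp only [Int.cast_zero, mul_zero] at hk
    linarith
  set C : ℝ → G := fun b => h (om a) + ∑ j ∈ Finset.univ.filter (fun j => τ j ≤ b), δ j with hC
  set P : ℝ → Prop := fun x => ∀ᶠ φ in 𝓝[>] x, h (om φ) = C x with hP
  have hPa : P a := by
    have h1 : ∀ᶠ φ in 𝓝[>] a, h (om φ) = h (om a) := (hconst a ha).filter_mono nhdsWithin_le_nhds
    filter_upwards [h1] with φ hφ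
    rw [hφ, hC]
    have : Finset.univ.filter (fun j => τ j ≤ a) = ∅ := by
      rw [Finset.filter_eq_empty_iff]
      intro j _ hj
      exact absurd (hτm j).1 (not_lt.2 hj)
    simp only [this, Finset.sum_empty, add_zero]
  -- eventually no event
  have hright : ∀ b, ∀ᶠ φ in 𝓝[>] b, ∀ j, (τ j ≤ φ ↔ τ j ≤ b) := by
    intro b
    rw [eventually_all]
    intro j
    rcases lt_or_ge b (τ j) with hj | hj
    · filter_upwards [Ioo_mem_nhdsGT hj] with φ hφ
      constructor
      · intro h1; exact absurd hφ.2 (not_lt.2 h1)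
      · intro h1; exact absurd hj (not_lt.2 h1)
    · filter_upwards [self_mem_nhdsWithin] with φ hφ
      exact ⟨fun _ => hj, fun _ => hj.trans (le_of_lt hφ)⟩
  have hleft : ∀ b, ∀ᶠ φ in 𝓝[<] b, ∀ j, (τ j ≤ φ ↔ τ j < b) := by
    intro b
    rw [eventually_all]
    intro j
    rcases lt_or_ge (τ j) b with hj | hj
    · filter_upwards [Ioo_mem_nhdsLT hj] with φ hφ
      exact ⟨fun _ => hj, fun _ => le_of_lt hφ.1⟩
    · filter_upwards [self_mem_nhdsWithin] with φ hφ
      constructor
      · intro h1; exact lt_of_le_of_lt h1 hφ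
      · intro h1; exact absurd h1 (not_lt.2 hj)
  -- the step at a point
  have hstep : ∀ b ∈ Set.Ioc a (a + 2 * Real.pi), (∀ x ∈ Set.Ico a b, P x) → P b := by
    intro b hb hx
    have hlim : ∃ hl hr : G, (∀ᶠ φ in 𝓝[<] b, h (om φ) = hl) ∧ (∀ᶠ φ in 𝓝[>] b, h (om φ) = hr) ∧
        hr = hl + ∑ j ∈ Finset.univ.filter (fun j => τ j = b), δ j := by
      by_cases hev : ∃ j, om b = z j
      · obtain ⟨j, hj⟩ := hev
        obtain ⟨hl, hr, h1, h2, h3⟩ := hjump' b j hj
        refine ⟨hl, hr, h1, h2, ?_⟩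
        have h4 : Finset.univ.filter (fun i => τ i = b) = {j} := by
          ext i
          simp only [Finset.mem_filter, Finset.mem_univ, true_and, Finset.mem_singleton]
          constructor
          · intro hi
            apply hinj
            rw [← hτz i, hi, hj]
          · rintro rfl
            exact huniq b hb _ hj
        rw [h4, Finset.sum_singleton, ← h3]
        abel
      · push Not at hev
        have h1 := hconst b hev
        refine ⟨h (om b), h (om b), h1.filter_mono nhdsWithin_le_nhds,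
          h1.filter_mono nhdsWithin_le_nhds, ?_⟩
        have h4 : Finset.univ.filter (fun i => τ i = b) = ∅ := by
          rw [Finset.filter_eq_empty_iff]
          intro i _ hi
          exact hev i (by rw [← hi, hτz i])
        rw [h4, Finset.sum_empty, add_zero]
    obtain ⟨hl, hr, h1, h2, h3⟩ := hlim
    have h4 : hl = h (om a) + ∑ j ∈ Finset.univ.filter (fun j => τ j < b), δ j := by
      obtain ⟨x, hxb, hx1⟩ := (mem_nhdsLT_iff_exists_Ioo_subset.1
        ((h1.and (hleft b)).and (Ioo_mem_nhdsLT hb.1)))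
      obtain ⟨y, hy⟩ := exists_between (show x < b from hxb)
      have hy1 := hx1 ⟨hy.1, hy.2⟩
      have hPy := hx y ⟨le_of_lt hy1.2.1, hy.2⟩
      have h5 : ∀ᶠ φ in 𝓝[>] y, φ ∈ Set.Ioo y b := Ioo_mem_nhdsGT hy.2
      obtain ⟨φ, hφ1, hφ2⟩ := (hPy.and h5).exists
      have hφ3 := hx1 ⟨hy.1.trans hφ2.1, hφ2.2⟩
      have hφ4 : h (om φ) = hl := hφ3.1.1
      have hy2 : ∀ j, (τ j ≤ y ↔ τ j < b) := hy1.1.2
      rw [hφ4, hC] at hφ1
      simpa only [hy2] using hφ1
    have h5 : C b = h (om a) + ∑ j ∈ Finset.univ.filter (fun j => τ j < b), δ j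
        + ∑ j ∈ Finset.univ.filter (fun j => τ j = b), δ j := by
      rw [hC]
      simp only
      rw [add_assoc, ← Finset.sum_union]
      · congr 2
        ext j
        simp only [Finset.mem_filter, Finset.mem_univ, true_and, Finset.mem_union]
        exact le_iff_lt_or_eq
      · rw [Finset.disjoint_filter]
        intro j _ h6 h7
        exact absurd h7 (ne_of_lt h6)
    filter_upwards [h2] with φ hφ
    rw [hφ, h5, h3, h4]
  -- real induction
  have hall : Set.Icc a (a + 2 * Real.pi) ⊆ {b | ∀ x ∈ Set.Icc a b, P x} := by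
    apply IsClosed.Icc_subset_of_forall_exists_gt
    · rw [← closure_subset_iff_isClosed]
      intro b hb
      have hb1 : b ∈ Set.Icc a (a + 2 * Real.pi) :=
        closure_minimal Set.inter_subset_right isClosed_Icc hb
      refine ⟨?_, hb1⟩
      have hlt : ∀ x ∈ Set.Ico a b, P x := by
        intro x hx
        obtain ⟨b', hb', hbd⟩ := Metric.mem_closure_iff.1 hb (b - x) (sub_pos.2 hx.2)
        apply hb'.1 x ⟨hx.1, ?_⟩
        rw [Real.dist_eq] at hbd
        have := (abs_lt.1 hbd).2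
        linarith
      intro x hx
      rcases eq_or_lt_of_le hx.2 with h1 | h1
      · rcases eq_or_lt_of_le hx.1 with h2 | h2
        · rw [← h2]; exact hPa
        · rw [h1]
          exact hstep b ⟨h1 ▸ h2, hb1.2⟩ hlt
      · exact hlt x ⟨hx.1, h1⟩
    · intro x hx
      have : x = a := le_antisymm hx.2 hx.1
      rw [this]; exact hPa
    · rintro x ⟨hx1, hx2⟩ y hy
      have hPx := hx1 x ⟨hx2.1, le_refl x⟩
      obtain ⟨u, hxu, hu⟩ := mem_nhdsGT_iff_exists_Ioo_subset.1 (hPx.and (hright x))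
      obtain ⟨v, hv⟩ := exists_between (lt_min (show x < u from hxu) (show x < y from hy))
      refine ⟨v, ?_, hv.1, le_of_lt (hv.2.trans_le (min_le_right _ _))⟩
      intro w hw
      rcases le_or_gt w x with h1 | h1
      · exact hx1 w ⟨hw.1, h1⟩
      · have hwu : w < u := lt_of_le_of_lt hw.2 (hv.2.trans_le (min_le_left _ _))
        have h2 := (hu ⟨h1, hwu⟩).2
        have h3 : C w = C x := by
          rw [hC]
          simp only [h2]
        filter_upwards [Ioo_mem_nhdsGT hwu] with φ hφ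
        rw [h3]
        exact (hu ⟨h1.trans hφ.1, hφ.2⟩).1
  have hend := hall (Set.right_mem_Icc.2 (by linarith)) (a + 2 * Real.pi)
    (Set.right_mem_Icc.2 (by linarith))
  have hCend : C (a + 2 * Real.pi) = h (om a) + ∑ j, δ j := by
    rw [hC]
    simp only
    congr 2
    rw [Finset.filter_true_of_mem]
    intro j _
    exact (hτm j).2
  have hper : ∀ᶠ φ in 𝓝[>] (a + 2 * Real.pi), h (om φ) = h (om a) := by
    have h1 : Tendsto (fun φ : ℝ => φ - 2 * Real.pi) (𝓝 (a + 2 * Real.pi)) (𝓝 a) := by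
      have : Continuous (fun φ : ℝ => φ - 2 * Real.pi) := by fun_prop
      have h2 := this.tendsto (a + 2 * Real.pi)
      simpa using h2
    have h3 := (h1.eventually (hconst a ha)).filter_mono
      (nhdsWithin_le_nhds (s := Set.Ioi (a + 2 * Real.pi)))
    filter_upwards [h3] with φ hφ
    rw [← hφ, ← om_add_two_pi (φ - 2 * Real.pi), sub_add_cancel]
  obtain ⟨φ, h1, h2⟩ := (hend.and hper).exists
  rw [h2, hCend] at h1
  exact (left_eq_add.1 h1)

end Pool.Agent.H63.EQ
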