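import Pool.Agent.H63.EQ.Events

/-!
# The vertex event
-/

namespace Pool.Agent.H63.EQ
open Filter Topology Pool.Agent.H58.EQ

variable {q : ℕ} [NeZero q]

/-- number of chords ending at `v` -/
noncomputable def il (W : Web (ZMod q)) (v : ℂ) : ℕ := (Finset.univ.filter fun f => W.R f = v).card

/-- number of chords starting at `v` -/
noncomputable def ol (W : Web (ZMod q)) (v : ℂ) : ℕ := (Finset.univ.filter fun f => W.L f = v).card

open Classical in
/-- number of chords passing below `v` -/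
noncomputable def bl (W : Web (ZMod q)) (v : ℂ) : ℕ :=
  (Finset.univ.filter fun f => W.cr f v ∧ 1 < W.kp f v).card

namespace Cyc

variable {W : Web (ZMod q)} {A : ZMod q → ℂ} (h : Cyc W A)

include h

theorem vtx (m : ZMod q) : W.vtx (A m) := by
  rcases h.end_self m with h1 | h1
  · exact ⟨m, Or.inl h1.symm⟩
  · exact ⟨m, Or.inr h1.symm⟩

theorem exists_of_vtx {v : ℂ} (hv : W.vtx v) : ∃ m, v = A m := by
  obtain ⟨e, he | he⟩ := hv
  · rcases h.lr e with h1 | h1
    · exact ⟨e, by rw [he, h1.1]⟩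
    · exact ⟨e + 1, by rw [he, h1.1]⟩
  · rcases h.lr e with h1 | h1
    · exact ⟨e + 1, by rw [he, h1.2]⟩
    · exact ⟨e, by rw [he, h1.2]⟩

theorem vtx_jumpAt (h90 : W.Wide90) (m0 m : ZMod q) (u w : ℂ) (s r : ℝ) (hr : 0 < r)
    (hv : A m = (r : ℂ) * om s) (hu : dt u (om s) ≠ 0) (h1 : dt w (om s) ≠ 0)
    (h2 : dt (w * Complex.I) (om s) ≠ 0)
    (htop : m = m0 → (∀ e, W.cr e (A m) → ¬ W.kp e (A m) < 1) ∧ ∃ e, W.R e = A m) :
    ∃ (D : ℕ) (d : ℤ × ZMod 2), JumpAt (FS W A h.even m0 u w) (om s) d ∧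
      2 * d.1 = (ol W (A m) : ℤ) - il W (A m) - 2 * D ∧
      d.2 = (if m = m0 then (bl W (A m) : ZMod 2) else 1 + (il W (A m) : ZMod 2))
          + D * (bl W (A m) : ZMod 2) ∧
      ((∀ e, W.cr e (A m) → ¬ 1 < W.kp e (A m)) → 0 < dt (V0 u (om s)) (V1c w (om s)).1 →
        (∀ e, (W.cr e (A m) ∨ W.R e = A m) → 0 < dt (V0 u (om s)) (W.L e)) → 1 ≤ D) := by
  classical
  obtain ⟨B, Ab, I, O, hleft, hright, hB, hA, hI, hO, hIn, hOn, hIp, hs0⟩ :=
    W.strands_vtx s r hr (A m) hv (h.vtx m)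
  have hpos : ∀ z, (0 < dt z (om s) ↔ 0 < dt z (A m)) := by
    intro z; rw [hv, dt_smul_right, mul_pos_iff_of_pos_left hr]
  obtain ⟨hV1a, hV1b, hV1c⟩ := V1c_spec w (om s) h1 h2
  have hlenI : I.length = il W (A m) := by
    unfold il; exact length_eq_card hIn hI
  have hlenO : O.length = ol W (A m) := by
    unfold ol; exact length_eq_card hOn hO
  have hBn : B.Nodup := by
    have := W.nodup_strands (om s)
    rw [hs0] at this
    exact (List.nodup_append.1 this).1
  have hlenB : B.length = bl W (A m) := by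
    unfold bl; exact length_eq_card hBn hB
  have hlen : I.length + O.length = 2 := by
    rw [hlenI, hlenO, add_comm]; exact W.card_two (A m) (h.vtx m)
  have hIa1 : ∀ e ∈ I, 0 < dt (W.L e) (V1c w (om s)).1 := by
    intro e he
    have hRe := (hI e).1 he
    refine dt_quad (om_ne_zero s) hV1b hV1c ?_ ?_
    · rw [hpos, ← hRe]; exact W.pos e
    · have := h90 e
      rw [hRe, hv, mul_assoc, dt_smul_right] at this
      exact (pos_iff_pos_of_mul_pos this).1 hr
  obtain ⟨D, d1, d2, d3⟩ := h.vtx_list m0 m B Ab I O (V0 u (om s), 0) (V1c w (om s))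
    (fun e he => ((hB e).1 he).1) (fun e he => (hA e).1 he) hI hO hIn hOn hIp hlen
    ((hpos _).1 (V0_pos hu)) ((hpos _).1 hV1b) hIa1 (by
      intro hm
      obtain ⟨t1, e, he⟩ := htop hm
      constructor
      · rw [List.eq_nil_iff_forall_not_mem]
        intro f hf
        exact t1 f ((hA f).1 hf).1 ((hA f).1 hf).2
      · intro hn
        have := (hI e).2 he
        rw [hn] at this; simp at this)
  refine ⟨D, _, ⟨s, rfl, FF W A h.even m0 (V0 u (om s), 0) (V1c w (om s)) (B ++ (I ++ Ab)),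
    FF W A h.even m0 (V0 u (om s), 0) (V1c w (om s)) (B ++ (O ++ Ab)), ?_, ?_, rfl⟩, ?_, ?_, ?_⟩
  · filter_upwards [hleft, nhdsWithin_le_nhds (V0_near u s hu),
      nhdsWithin_le_nhds (V1c_near w s h1 h2)] with φ p q r
    unfold FS; rw [p, q, r]
  · filter_upwards [hright, nhdsWithin_le_nhds (V0_near u s hu),
      nhdsWithin_le_nhds (V1c_near w s h1 h2)] with φ p q r
    unfold FS; rw [p, q, r]
  · rw [Prod.fst_sub, d1, hlenI, hlenO]
  · rw [Prod.snd_sub, d2, hlenI, hlenB]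
  · intro e1 e2 e3
    apply d3
    · rw [List.eq_nil_iff_forall_not_mem]
      intro f hf
      exact e1 f ((hB f).1 hf).1 ((hB f).1 hf).2
    · exact e2
    · intro f hf
      exact e3 f (Or.inl ((hA f).1 hf).1)
    · intro f hf
      exact e3 f (Or.inr ((hI f).1 hf))

end Cyc

end Pool.Agent.H63.EQ
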