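import Pool.Agent.H63.EQ.Cyc
import Pool.Agent.H63.EQ.SweepEq

/-!
# The jump of the state functional at a vertex
-/

namespace Pool.Agent.H63.EQ
open Filter Topology Pool.Agent.H58.EQ

variable {q : ℕ} [NeZero q]

/-- the full state list -/
noncomputable def full (W : Web (ZMod q)) (A : ZMod q → ℂ) (h : 2 ∣ q) (a0 a1 : ℂ × ZMod 2)
    (l : List (ZMod q)) : List (ℂ × ZMod 2) := a0 :: (l.map (lab W A h) ++ [a1])

/-- the pair of functionals of a state -/
noncomputable def FF (W : Web (ZMod q)) (A : ZMod q → ℂ) (h : 2 ∣ q) (m0 : ZMod q)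
    (a0 a1 : ℂ × ZMod 2) (l : List (ZMod q)) : ℤ × ZMod 2 :=
  (asc ((full W A h a0 a1 l).map Prod.fst),
    ts 0 (full W A h a0 a1 l) + NM (idx m0) (pb W A) l)

namespace Cyc

variable {W : Web (ZMod q)} {A : ZMod q → ℂ} (h : Cyc W A)

include h

theorem vtx_list (m0 m : ZMod q) (B Ab I O : List (ZMod q)) (a0 a1 : ℂ × ZMod 2)
    (hB : ∀ e ∈ B, W.cr e (A m)) (hAb : ∀ e ∈ Ab, W.cr e (A m) ∧ W.kp e (A m) < 1)
    (hI : ∀ e, e ∈ I ↔ W.R e = A m) (hO : ∀ e, e ∈ O ↔ W.L e = A m)
    (hIn : I.Nodup) (hOn : O.Nodup) (hIp : I.Pairwise (fun c d => 0 < dt (W.L c) (W.L d)))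
    (hlen : I.length + O.length = 2)
    (ha0 : 0 < dt a0.1 (A m)) (ha1 : 0 < dt a1.1 (A m))
    (hIa1 : ∀ e ∈ I, 0 < dt (W.L e) a1.1)
    (htop : m = m0 → Ab = [] ∧ I ≠ []) :
    ∃ D : ℕ,
      2 * ((FF W A h.even m0 a0 a1 (B ++ (O ++ Ab))).1 - (FF W A h.even m0 a0 a1 (B ++ (I ++ Ab))).1)
        = (O.length : ℤ) - I.length - 2 * D ∧
      (FF W A h.even m0 a0 a1 (B ++ (O ++ Ab))).2 - (FF W A h.even m0 a0 a1 (B ++ (I ++ Ab))).2
        = (if m = m0 then (B.length : ZMod 2) else 1 + (I.length : ZMod 2))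
          + D * (B.length : ZMod 2) ∧
      (B = [] → 0 < dt a0.1 a1.1 → (∀ f ∈ Ab, 0 < dt a0.1 (W.L f)) →
        (∀ e ∈ I, 0 < dt a0.1 (W.L e)) → 1 ≤ D) := by
  obtain ⟨a, b, tl, tr, hl, hr, s1, s2, s3, s4⟩ := split (lab W A h.even) a0 a1 B Ab
  have hnm := h.NM_jump m0 m B Ab I O hB (fun e he => (hAb e he).1) hI hO hIn hOn hlen htop
  have ha : 0 < dt a.1 (A m) := by
    rcases s1 with rfl | ⟨e, he, rfl⟩
    · exact ha0
    · exact (hB e he).1
  have hb : 0 < dt b.1 (A m) := by
    rcases s3 with rfl | ⟨e, he, rfl⟩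
    · exact ha1
    · exact (hAb e he).1.1
  have hIb : ∀ e ∈ I, 0 < dt (W.L e) b.1 := by
    intro e he
    rcases s3 with rfl | ⟨f, hf, rfl⟩
    · exact hIa1 e he
    · have hRe := (hI e).1 he
      apply W.factR e f
      · rw [hRe]; exact (hAb f hf).1
      · rw [hRe]; exact (hAb f hf).2
  have hab : B = [] → 0 < dt a0.1 a1.1 → (∀ f ∈ Ab, 0 < dt a0.1 (W.L f)) → 0 < dt a.1 b.1 := by
    intro h1 h2 h3
    rw [s2 h1]
    rcases s3 with rfl | ⟨f, hf, rfl⟩
    · exact h2
    · exact h3 f hf
  have hlabL : ∀ e, W.L e = A m → lab W A h.even e = (A m, ZMod.castHom h.even (ZMod 2) m) := by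
    intro e he; unfold lab; rw [(h.L_eq he).2, he]
  have hlabR : ∀ e, W.R e = A m →
      lab W A h.even e = (W.L e, ZMod.castHom h.even (ZMod 2) m + 1) := by
    intro e he; unfold lab; rw [(h.R_eq he).2]
  unfold FF full
  simp only [(s4 _).1, (s4 _).2]
  match I, O, hlen with
  | [], [c, d], _ =>
    have hm : m ≠ m0 := by
      intro hm; exact (htop hm).2 rfl
    have hc := hlabL c ((hO c).1 (by simp))
    have hd := hlabL d ((hO d).1 (by simp))
    obtain ⟨D, d1, d2, d3⟩ := core_LL (B.length : ZMod 2) (ZMod.castHom h.even (ZMod 2) m) (A m)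
      a b ha hb
    refine ⟨D, ?_, ?_, ?_⟩
    · simp only [List.map_cons, List.map_nil, List.cons_append, List.nil_append, hc, hd,
        List.length_cons, List.length_nil] at d1 ⊢
      push_cast
      linarith
    · rw [if_neg hm, if_pos rfl] at hnm
      rw [if_neg hm]
      simp only [List.map_cons, List.map_nil, List.cons_append, List.nil_append, hc, hd,
        List.length_cons, List.length_nil] at d2 hnm ⊢
      have e : ((0 + 1 + 1 : ℕ) : ZMod 2) = ((0 : ℕ) : ZMod 2) := by decide
      rw [e]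
      have key : ∀ x y z w β t D p r: ZMod 2, x - y = D * β + β → z - w = 1 + β →
          (t + x + r + z) - (t + y + r + w) = 1 + p * 0 + D * β := by decide
      have := key _ _ _ _ _ tl _ 0 (tr ((0 : ℕ) : ZMod 2)) d2 hnm
      rw [this]; simp
    · intro h1 h2 h3 _
      exact d3 (hab h1 h2 h3)
  | [c], [d], _ =>
    have hc := hlabR c ((hI c).1 (by simp))
    have hd := hlabL d ((hO d).1 (by simp))
    obtain ⟨D, d1, d2, d3⟩ := core_str (B.length : ZMod 2) (ZMod.castHom h.even (ZMod 2) m) (A m)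
      (W.L c) a b ha hb (hIb c (by simp))
    refine ⟨D, ?_, ?_, ?_⟩
    · simp only [List.map_cons, List.map_nil, List.cons_append, List.nil_append, hc, hd,
        List.length_cons, List.length_nil] at d1 ⊢
      push_cast
      linarith
    · by_cases hm : m = m0
      · rw [if_pos hm, if_neg (by simp)] at hnm
        rw [if_pos hm]
        simp only [List.map_cons, List.map_nil, List.cons_append, List.nil_append, hc, hd,
          List.length_cons, List.length_nil] at d2 hnm ⊢
        have key : ∀ x y z w β t D r: ZMod 2, x - y = D * β → z - w = β →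
            (t + x + r + z) - (t + y + r + w) = β + D * β := by decide
        exact key _ _ _ _ _ tl _ _ d2 hnm
      · rw [if_neg hm, if_neg (by simp), if_neg (by simp)] at hnm
        rw [if_neg hm]
        simp only [List.map_cons, List.map_nil, List.cons_append, List.nil_append, hc, hd,
          List.length_cons, List.length_nil] at d2 hnm ⊢
        have key : ∀ x y z w β t D r: ZMod 2, x - y = D * β → z - w = 0 →
            (t + x + r + z) - (t + y + r + w) = 1 + ((0 + 1 : ℕ) : ZMod 2) + D * β := by decide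
        exact key _ _ _ _ _ tl _ _ d2 hnm
    · intro h1 _ _ h4
      apply d3
      rw [s2 h1]
      exact h4 c (by simp)
  | [c, d], [], _ =>
    have hc := hlabR c ((hI c).1 (by simp))
    have hd := hlabR d ((hI d).1 (by simp))
    have hcd : 0 < dt (W.L c) (W.L d) := by
      have := hIp; simp at this; exact this
    obtain ⟨D, d1, d2, d3⟩ := core_RR (B.length : ZMod 2) (ZMod.castHom h.even (ZMod 2) m)
      (W.L c) (W.L d) a b hcd (hIb d (by simp))
    refine ⟨D, ?_, ?_, ?_⟩
    · simp only [List.map_cons, List.map_nil, List.cons_append, List.nil_append, hc, hd,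
        List.length_cons, List.length_nil] at d1 ⊢
      push_cast
      linarith
    · by_cases hm : m = m0
      · rw [if_pos hm, if_pos rfl] at hnm
        rw [if_pos hm]
        simp only [List.map_cons, List.map_nil, List.cons_append, List.nil_append, hc, hd,
          List.length_cons, List.length_nil] at d2 hnm ⊢
        have e : ((0 + 1 + 1 : ℕ) : ZMod 2) = ((0 : ℕ) : ZMod 2) := by decide
        rw [e]
        have key : ∀ x y z w β t D r: ZMod 2, x - y = D * β + (β + 1) → z - w = 1 →
            (t + x + r + z) - (t + y + r + w) = β + D * β := by decide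
        exact key _ _ _ _ _ tl _ _ d2 hnm
      · rw [if_neg hm, if_neg (by simp), if_pos rfl] at hnm
        rw [if_neg hm]
        simp only [List.map_cons, List.map_nil, List.cons_append, List.nil_append, hc, hd,
          List.length_cons, List.length_nil] at d2 hnm ⊢
        have e : ((0 + 1 + 1 : ℕ) : ZMod 2) = ((0 : ℕ) : ZMod 2) := by decide
        rw [e]
        have key : ∀ x y z w β t D r: ZMod 2, x - y = D * β + (β + 1) → z - w = β →
            (t + x + r + z) - (t + y + r + w) = 1 + ((0 : ℕ) : ZMod 2) + D * β := by decide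
        exact key _ _ _ _ _ tl _ _ d2 hnm
    · intro h1 h2 h3 h4
      apply d3 (hab h1 h2 h3)
      rw [s2 h1]
      exact h4 c (by simp)
  | [], [], h => simp at h
  | [], [_], h => simp at h
  | [], _ :: _ :: _ :: _, h => simp at h
  | [_], [], h => simp at h
  | [_], _ :: _ :: _, h => simp at h; omega
  | [_, _], _ :: _, h => simp at h; try omega
  | _ :: _ :: _ :: _, _, h => simp at h; omega

end Cyc

end Pool.Agent.H63.EQ
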